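import Pool.Agent.Lib.MP_b0e20b_ag_X.Yx

/-!
# MP_b0e20b_ag, block X: the growth exponents of the flags of the second type
-/

set_option autoImplicit false

open scoped BigOperators

namespace Pool.Agent.MPb0eA

variable {d : ℕ} {h : (Fin d → ℕ) → ℝ} {u : Fin d → ℕ → ℝ} {r : Fin d → ℕ}
  {J : Finset (Fin d)} {C : Finset (Fin d → ℕ)} {V a : ℝ}

/-- The tuples with `T i = b` and the other coordinates in the range. -/
def Bx (J : Finset (Fin d)) (r : Fin d → ℕ) (i : Fin d) (b : ℕ) : Finset (Fin d → ℕ) :=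
  Fintype.piFinset fun k => if k = i then {b} else Finset.Icc (loJ J k) (r k)

theorem mem_Bx {i : Fin d} {b : ℕ} {T : Fin d → ℕ} :
    T ∈ Bx J r i b ↔ T i = b ∧ ∀ k, k ≠ i → loJ J k ≤ T k ∧ T k ≤ r k := by
  rw [Bx, Fintype.mem_piFinset]
  constructor
  · intro h
    refine ⟨?_, fun k hk => ?_⟩
    · have h1 := h i
      rw [if_pos rfl, Finset.mem_singleton] at h1
      exact h1
    · have h1 := h k
      rw [if_neg hk, Finset.mem_Icc] at h1
      exact h1
  · rintro ⟨h1, h2⟩ k
    by_cases hk : k = i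
    · subst hk
      rw [if_pos rfl, Finset.mem_singleton]
      exact h1
    · rw [if_neg hk, Finset.mem_Icc]
      exact h2 k hk

theorem loJ_le (r1 : ∀ i ∈ J, 1 ≤ r i) (i : Fin d) : loJ J i ≤ r i := by
  unfold loJ
  split_ifs with h
  · exact r1 i h
  · exact Nat.zero_le _

/-- The maximum over the tuples with `T i = b`. -/
theorem exists_m (r1 : ∀ i ∈ J, 1 ≤ r i) (f : (Fin d → ℕ) → ℝ) (i : Fin d) (b : ℕ) :
    ∃ m : ℝ, (∃ T ∈ Bx J r i b, f T = m) ∧ ∀ T ∈ Bx J r i b, f T ≤ m := by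
  have hne : (Bx J r i b).Nonempty := by
    refine ⟨Function.update r i b, mem_Bx.2 ⟨Function.update_self .., fun k hk => ?_⟩⟩
    rw [Function.update_of_ne hk]
    exact ⟨loJ_le r1 k, le_rfl⟩
  obtain ⟨T, hT, hmax⟩ := Finset.exists_max_image (Bx J r i b) f hne
  exact ⟨f T, ⟨T, hT, rfl⟩, hmax⟩

/-- The properties of the growth exponents. -/
structure PX (h : (Fin d → ℕ) → ℝ) (u : Fin d → ℕ → ℝ) (r : Fin d → ℕ) (J : Finset (Fin d))
    (C : Finset (Fin d → ℕ)) (V a : ℝ) : Prop where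
  p0 : ∀ i, u i 0 = 0
  p1 : ∀ T ∈ C, vM h u T = V
  p2 : 2 * ∑ i, u i (r i) = V
  p3 : ∀ j ∈ J, (∃ T ∈ Bx J r j 0, vM h u T = a) ∧ ∀ T ∈ Bx J r j 0, vM h u T ≤ a
  p4 : ∀ i b, r i < b → (∃ T ∈ Bx J r i b, vM h u T = 2 * u i b + V - 2 * u i (r i)) ∧
    ∀ T ∈ Bx J r i b, vM h u T ≤ 2 * u i b + V - 2 * u i (r i)

theorem exists_px (J0 : J.Nonempty) (r1 : ∀ i ∈ J, 1 ≤ r i) (hC : Core (loJ J) r r C) :
    ∃ (u : Fin d → ℕ → ℝ) (V a : ℝ), PX h u r J C V a := by
  classical
  have hd : 0 < d := by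
    obtain ⟨j, _⟩ := J0
    exact lt_of_le_of_lt (Nat.zero_le _) j.2
  obtain ⟨y, hy⟩ := exists_y hd hC.pw fun T => - h T
  choose M hM1 hM2 using fun j => exists_m r1
    (fun T => h T + ∑ k, if k = j then 0 else y k (T k)) j 0
  have hJ0 : (J.card : ℝ) ≠ 0 := by
    have := Finset.card_pos.2 J0
    positivity
  set τ : ℝ := (-2 * ∑ i, y i (r i) - ∑ i, (if i ∈ J then M i else - y i 0)) / J.card with hτ
  set cs : Fin d → ℝ := fun i => (if i ∈ J then M i else - y i 0) + if i ∈ J then τ else 0 with hcs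
  have hcs1 : ∑ i, cs i = -2 * ∑ i, y i (r i) := by
    rw [hcs]
    simp only
    rw [Finset.sum_add_distrib, Finset.sum_ite_mem, Finset.univ_inter, Finset.sum_const,
      nsmul_eq_mul, hτ, mul_div_cancel₀ _ hJ0]
    ring
  set u1 : Fin d → ℕ → ℝ := fun i b => if b = 0 then 0 else y i b + cs i with hu1
  have hr : ∀ i b, loJ J i ≤ b → u1 i b = y i b + cs i := by
    intro i b hb
    by_cases h0 : b = 0
    · subst h0
      have hi : i ∉ J := by
        intro hi
        unfold loJ at hb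
        rw [if_pos hi] at hb
        omega
      simp only [hu1, hcs, if_pos, if_neg hi]
      ring
    · simp only [hu1, if_neg h0]
  have hu0 : ∀ i, u1 i 0 = 0 := fun i => if_pos rfl
  choose m hm1 hm2 using fun i b => exists_m r1
    (fun T => h T + ∑ k, if k = i then 0 else u1 k (T k)) i b
  set V : ℝ := ∑ i, cs i with hV
  set u : Fin d → ℕ → ℝ := fun i b => if b ≤ r i then u1 i b else m i b - V + 2 * u1 i (r i) with hu
  have hule : ∀ i b, b ≤ r i → u i b = u1 i b := fun i b hb => if_pos hb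
  have hugt : ∀ i b, r i < b → u i b = m i b - V + 2 * u1 i (r i) :=
    fun i b hb => if_neg (not_le.2 hb)
  have hsum : ∀ (i : Fin d) (T : Fin d → ℕ), (∀ k, k ≠ i → loJ J k ≤ T k ∧ T k ≤ r k) →
      vM h u T = (h T + ∑ k, if k = i then 0 else u1 k (T k)) + u i (T i) := by
    intro i T hT
    unfold vM
    rw [add_assoc]
    congr 1
    rw [← Finset.add_sum_erase _ _ (Finset.mem_univ i), ← Finset.add_sum_erase _
      (fun k => if k = i then 0 else u1 k (T k)) (Finset.mem_univ i), if_pos rfl, zero_add,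
      add_comm]
    congr 1
    refine Finset.sum_congr rfl fun k hk => ?_
    have hk' := Finset.ne_of_mem_erase hk
    rw [if_neg hk', hule k _ (hT k hk').2]
  have hsum2 : ∀ (i : Fin d) (T : Fin d → ℕ), (∀ k, k ≠ i → loJ J k ≤ T k ∧ T k ≤ r k) →
      ∑ k, (if k = i then 0 else u1 k (T k)) =
        ∑ k, (if k = i then 0 else y k (T k)) + (V - cs i) := by
    intro i T hT
    have h1 : ∀ k, (if k = i then 0 else u1 k (T k)) =
        (if k = i then 0 else y k (T k)) + (cs k - if k = i then cs i else 0) := by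
      intro k
      by_cases hk : k = i
      · subst hk
        simp
      · rw [if_neg hk, if_neg hk, if_neg hk, hr k _ (hT k hk).1]
        ring
    rw [Finset.sum_congr rfl fun k _ => h1 k, Finset.sum_add_distrib, Finset.sum_sub_distrib,
      Finset.sum_ite_eq' Finset.univ i fun _ => cs i, if_pos (Finset.mem_univ i)]
  refine ⟨u, V, V - τ, ?_, ?_, ?_, ?_, ?_⟩
  · intro i
    rw [hule i 0 (Nat.zero_le _), hu0]
  · intro T hT
    have h1 := hC.box T hT
    unfold vM
    have h2 : ∀ i, u i (T i) = y i (T i) + cs i := fun i => by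
      rw [hule i _ (h1 i).2, hr i _ (h1 i).1]
    rw [Finset.sum_congr rfl fun i _ => h2 i, Finset.sum_add_distrib, hy T hT]
    ring
  · have h2 : ∀ i, u i (r i) = y i (r i) + cs i := fun i => by
      rw [hule i _ le_rfl, hr i _ (loJ_le r1 i)]
    rw [Finset.sum_congr rfl fun i _ => h2 i, Finset.sum_add_distrib, mul_add]
    linarith
  · intro j hj
    have key : ∀ T ∈ Bx J r j 0, vM h u T =
        (h T + ∑ k, if k = j then 0 else y k (T k)) + (V - cs j) := by
      intro T hT
      obtain ⟨h1, h2⟩ := mem_Bx.1 hT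
      rw [hsum j T h2, hsum2 j T h2, h1, hule j 0 (Nat.zero_le _), hu0]
      ring
    have hcj : cs j = M j + τ := by
      simp only [hcs, if_pos hj]
    constructor
    · obtain ⟨T, hT, hT'⟩ := hM1 j
      refine ⟨T, hT, ?_⟩
      rw [key T hT, hT', hcj]
      ring
    · intro T hT
      have h1 := hM2 j T hT
      rw [key T hT, hcj]
      linarith
  · intro i b hb
    have key : ∀ T ∈ Bx J r i b, vM h u T =
        (h T + ∑ k, if k = i then 0 else u1 k (T k)) + u i b := by
      intro T hT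
      obtain ⟨h1, h2⟩ := mem_Bx.1 hT
      rw [hsum i T h2, h1]
    have h3 : 2 * u i b + V - 2 * u i (r i) = m i b + u i b := by
      rw [hugt i b hb, hule i _ le_rfl]
      ring
    rw [h3]
    constructor
    · obtain ⟨T, hT, hT'⟩ := hm1 i b
      refine ⟨T, hT, ?_⟩
      rw [key T hT, hT']
    · intro T hT
      have h1 := hm2 i b T hT
      rw [key T hT]
      linarith

end Pool.Agent.MPb0eA
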