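import Pool.Agent.Lib.MP_b0e20b_ag_X.Dom
import Pool.Agent.Lib.MP_b0e20b_ag_X.E1
import Pool.Agent.Lib.MP_b0e20b_ag_A.Val

/-!
# MP_b0e20b_ag, block X: existence of the flags of the second type
-/

set_option autoImplicit false

open scoped BigOperators

namespace Pool.Agent.MPb0eA

variable {d : ℕ} {n : Fin d → ℕ} {h : (Fin d → ℕ) → ℝ} {c H : ℝ} {u : Fin d → ℕ → ℝ}
  {r : Fin d → ℕ} {J : Finset (Fin d)} {C : Finset (Fin d → ℕ)} {V a : ℝ}

/-- Exchange for the values. -/
theorem HX.exV (hh : HX n h c H) (u : Fin d → ℕ → ℝ) {T U : Fin d → ℕ} (hT : ∀ i, T i ≤ n i)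
    (hU : ∀ i, U i ≤ n i) (ha : ¬ Alt T U) : ∃ V W, Exc T U V W ∧ Alt V W ∧
      vM h u T + vM h u U < vM h u V + vM h u W := by
  obtain ⟨V, W, he, hal, _, _, hlt⟩ := hh.ex T U hT hU ha
  refine ⟨V, W, he, hal, ?_⟩
  have h5 : ∑ i, u i (T i) + ∑ i, u i (U i) = ∑ i, u i (V i) + ∑ i, u i (W i) := by
    rw [← Finset.sum_add_distrib, ← Finset.sum_add_distrib]
    refine Finset.sum_congr rfl fun i _ => ?_
    rcases he i with ⟨h6, h7⟩ | ⟨h6, h7⟩
    · rw [h6, h7]
    · rw [h6, h7, add_comm]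
  unfold vM
  linarith

/-- The replacement of the coordinates out of the range by `r`. -/
def Pj (J : Finset (Fin d)) (r : Fin d → ℕ) (D : Finset (Fin d)) (T : Fin d → ℕ) : Fin d → ℕ :=
  fun k => if k ∈ D ∧ ¬ (loJ J k ≤ T k ∧ T k ≤ r k) then r k else T k

section

variable (hh : HX n h c H) (J0 : J.Nonempty) (r1 : ∀ i ∈ J, 1 ≤ r i) (rn : ∀ i, r i ≤ n i)
  (hC : Core (loJ J) r r C) (hX : PX h u r J C V a)

include hC in
theorem Ee_nonempty : C.Nonempty := by
  by_contra hne
  rw [Finset.not_nonempty_iff_eq_empty] at hne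
  obtain ⟨lam, _, hw⟩ := hC.wt
  have h1 := hw.one
  rw [hne, Finset.sum_empty] at h1
  exact zero_ne_one h1

include hh rn hC hX in
/-- The values in the box. -/
theorem Ee_box {T : Fin d → ℕ} (hT : ∀ i, loJ J i ≤ T i ∧ T i ≤ r i) :
    vM h u T ≤ V ∧ (T ∉ C → vM h u T < V) := by
  have h1 : T ∉ C → vM h u T < V := fun hTC => by
    refine dom hC (Or.inl fun T hT i => (hC.box T hT i).2) hX.p1 (fun T U hT hU ha => ?_) hT hTC
    exact hh.exV u (fun i => (hT i).2.trans (rn i)) (fun i => (hU i).2.trans (rn i)) ha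
  refine ⟨?_, h1⟩
  by_cases hTC : T ∈ C
  · exact (hX.p1 T hTC).le
  · exact (h1 hTC).le

include hh rn hC hX in
theorem Ee_lt1 {i : Fin d} {b : ℕ} (hb : loJ J i ≤ b) (hb' : b < r i) : u i b < u i (r i) := by
  obtain ⟨S, hS, hSi⟩ := hC.used i (r i) (hb.trans hb'.le) le_rfl
  have hSb := hC.box S hS
  have h1 : ∀ k, loJ J k ≤ Function.update S i b k ∧ Function.update S i b k ≤ r k := by
    intro k
    by_cases hk : k = i
    · subst hk
      rw [Function.update_self]
      exact ⟨hb, hb'.le⟩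
    · rw [Function.update_of_ne hk]
      exact hSb k
  have h2 := (Ee_box hh rn hC hX h1).1
  rw [vM_update, hX.p1 S hS] at h2
  have h3 := hh.dec S (fun k => (hSb k).2.trans (rn k)) i b (by rw [hSi]; exact hb')
  rw [hSi] at h2
  linarith

include hh rn r1 hC hX in
theorem Ee_lt2 {i : Fin d} {b : ℕ} (hb : r i < b) (hb' : b ≤ n i) : u i b < u i (r i) := by
  obtain ⟨⟨T, hT, hTv⟩, _⟩ := hX.p4 i b hb
  obtain ⟨hTi, hTk⟩ := mem_Bx.1 hT
  have h1 : ∀ k, loJ J k ≤ Function.update T i (r i) k ∧ Function.update T i (r i) k ≤ r k := by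
    intro k
    by_cases hk : k = i
    · subst hk
      rw [Function.update_self]
      exact ⟨loJ_le r1 k, le_rfl⟩
    · rw [Function.update_of_ne hk]
      exact hTk k hk
  have h2 := (Ee_box hh rn hC hX h1).1
  rw [vM_update, hTv] at h2
  have h3 := hh.dec T (fun k => by
    by_cases hk : k = i
    · rw [hk, hTi]
      exact hb'
    · exact (hTk k hk).2.trans (rn k)) i (r i) (by rw [hTi]; exact hb)
  rw [hTi] at h2
  linarith

include hh rn r1 hC hX in
theorem Ee_out {i : Fin d} (hi : i ∉ J) : 0 ≤ u i (r i) ∧ u i (r i) ≤ c := by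
  have hlo : loJ J i = 0 := if_neg hi
  constructor
  · by_cases hr : r i = 0
    · rw [hr, hX.p0]
    · have h1 := Ee_lt1 hh rn hC hX (i := i) (b := 0) (by rw [hlo]) (Nat.pos_of_ne_zero hr)
      rw [hX.p0] at h1
      exact h1.le
  · obtain ⟨S, hS, hSi⟩ := hC.used i 0 (by rw [hlo]) (Nat.zero_le _)
    have hSb := hC.box S hS
    have h1 : ∀ k, loJ J k ≤ Function.update S i (r i) k ∧ Function.update S i (r i) k ≤ r k := by
      intro k
      by_cases hk : k = i
      · subst hk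
        rw [Function.update_self]
        exact ⟨loJ_le r1 k, le_rfl⟩
      · rw [Function.update_of_ne hk]
        exact hSb k
    have h2 := (Ee_box hh rn hC hX h1).1
    rw [vM_update, hX.p1 S hS, hSi, hX.p0] at h2
    have h3 := (hh.lo S fun k => (hSb k).2.trans (rn k)).2
    have h4 := (hh.lo (Function.update S i (r i)) fun k => (h1 k).2.trans (rn k)).1
    linarith

include hh rn r1 hC hX in
theorem Ee_sum : H - c ≤ ∑ i, u i (r i) ∧ ∑ i, u i (r i) ≤ H := by
  constructor
  · have h1 := (Ee_box hh rn hC hX (T := r) fun k => ⟨loJ_le r1 k, le_rfl⟩).1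
    have h2 := (hh.lo r rn).1
    rw [vM, ← hX.p2] at h1
    linarith
  · obtain ⟨T, hT⟩ := Ee_nonempty hC
    have hTb := hC.box T hT
    have h1 := hX.p1 T hT
    have h2 : ∑ i, u i (T i) ≤ ∑ i, u i (r i) := by
      refine Finset.sum_le_sum fun i _ => ?_
      rcases (hTb i).2.lt_or_eq with h3 | h3
      · exact (Ee_lt1 hh rn hC hX (hTb i).1 h3).le
      · rw [h3]
    have h3 := (hh.lo T fun k => (hTb k).2.trans (rn k)).2
    rw [vM, ← hX.p2] at h1
    linarith

include hh rn r1 hC hX in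
theorem Ee_a {j : Fin d} (hj : j ∈ J) : H - c + ∑ i, u i (r i) - u j (r j) ≤ a ∧
    a ≤ H + ∑ i, u i (r i) - u j (r j) := by
  obtain ⟨⟨T, hT, hTa⟩, hmax⟩ := hX.p3 j hj
  have key : ∀ T ∈ Bx J r j 0, ∀ k, T k ≤ n k := by
    intro T hT k
    obtain ⟨h1, h2⟩ := mem_Bx.1 hT
    by_cases hk : k = j
    · rw [hk, h1]
      exact Nat.zero_le _
    · exact (h2 k hk).2.trans (rn k)
  constructor
  · have h1 : Function.update r j 0 ∈ Bx J r j 0 := by
      refine mem_Bx.2 ⟨Function.update_self .., fun k hk => ?_⟩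
      rw [Function.update_of_ne hk]
      exact ⟨loJ_le r1 k, le_rfl⟩
    have h2 := hmax _ h1
    have h3 := (hh.lo _ (key _ h1)).1
    rw [vM_update, hX.p0, vM] at h2
    linarith
  · obtain ⟨h1, h2⟩ := mem_Bx.1 hT
    have h3 := (hh.lo _ (key _ hT)).2
    have h4 : ∑ i, u i (T i) ≤ ∑ i, u i (r i) - u j (r j) := by
      rw [← Finset.add_sum_erase _ _ (Finset.mem_univ j), ← Finset.add_sum_erase _
        (fun i => u i (r i)) (Finset.mem_univ j), h1, hX.p0]
      have h5 : ∑ k ∈ Finset.univ.erase j, u k (T k) ≤ ∑ k ∈ Finset.univ.erase j, u k (r k) := by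
        refine Finset.sum_le_sum fun k hk => ?_
        have h6 := h2 k (Finset.ne_of_mem_erase hk)
        rcases h6.2.lt_or_eq with h7 | h7
        · exact (Ee_lt1 hh rn hC hX h6.1 h7).le
        · rw [h7]
      linarith
    rw [vM] at hTa
    linarith

include hh rn r1 hC hX in
theorem Ee_J {j : Fin d} (hj : j ∈ J) : 3 * c ≤ u j (r j) := by
  by_contra hcon
  rw [not_le] at hcon
  have h1 : ∀ i, u i (r i) ≤ 4 * c := by
    intro i
    by_cases hi : i ∈ J
    · have h2 := (Ee_a hh r1 rn hC hX hi).2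
      have h3 := (Ee_a hh r1 rn hC hX hj).1
      linarith
    · have h2 := (Ee_out hh r1 rn hC hX hi).2
      have h3 := hh.pos
      linarith
  have h2 : ∑ i, u i (r i) ≤ ∑ _i : Fin d, 4 * c := Finset.sum_le_sum fun i _ => h1 i
  rw [Finset.sum_const, Finset.card_univ, Fintype.card_fin, nsmul_eq_mul] at h2
  have h3 := (Ee_sum hh r1 rn hC hX).1
  have h4 := hh.big
  have h5 := hh.pos
  have h6 : (0 : ℝ) ≤ d := Nat.cast_nonneg _
  nlinarith

include hh rn r1 hC hX in
theorem Ee_lt {i : Fin d} {b : ℕ} (hb : b ≤ n i) (hb' : b ≠ r i) : u i b < u i (r i) := by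
  rcases lt_or_gt_of_ne hb' with h1 | h1
  · by_cases h2 : loJ J i ≤ b
    · exact Ee_lt1 hh rn hC hX h2 h1
    · have hi : i ∈ J := by
        by_contra hi
        rw [loJ, if_neg hi] at h2
        omega
      rw [loJ, if_pos hi] at h2
      have h3 : b = 0 := by omega
      rw [h3, hX.p0]
      have := Ee_J hh r1 rn hC hX hi
      have := hh.pos
      linarith
  · exact Ee_lt2 hh r1 rn hC hX h1 hb

include hh rn r1 hC hX in
/-- One coordinate out of the range. -/
theorem Ee_step {T : Fin d → ℕ} (hT : ∀ k, T k ≤ n k) {k : Fin d}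
    (hk : ¬ (loJ J k ≤ T k ∧ T k ≤ r k)) : vM h u T < vM h u (Function.update T k (r k)) := by
  have hne : T k ≠ r k := fun h1 => hk ⟨by rw [h1]; exact loJ_le r1 k, h1.le⟩
  rw [vM_update]
  by_cases h2 : T k ≤ r k
  · have hk1 : k ∈ J := by
      by_contra hi
      refine hk ⟨?_, h2⟩
      rw [loJ, if_neg hi]
      exact Nat.zero_le _
    have h0 : T k = 0 := by
      by_contra h0
      refine hk ⟨?_, h2⟩
      rw [loJ, if_pos hk1]
      omega
    have h3 := Ee_J hh r1 rn hC hX hk1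
    have h4 := (hh.lo T hT).2
    have h5 := (hh.lo (Function.update T k (r k)) fun l => by
      by_cases hl : l = k
      · subst hl
        rw [Function.update_self]
        exact rn l
      · rw [Function.update_of_ne hl]
        exact hT l).1
    have h6 := hh.pos
    rw [h0, hX.p0]
    linarith
  · have h3 := hh.dec T hT k (r k) (by omega)
    have h4 := Ee_lt hh r1 rn hC hX (hT k) hne
    linarith

include hh rn r1 hC hX in
theorem Ee_proj {T : Fin d → ℕ} (hT : ∀ k, T k ≤ n k) (D : Finset (Fin d)) :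
    vM h u T ≤ vM h u (Pj J r D T) ∧ (Pj J r D T ≠ T → vM h u T < vM h u (Pj J r D T)) ∧
      ∀ k, Pj J r D T k ≤ n k := by
  classical
  induction D using Finset.induction_on with
  | empty =>
    have h1 : Pj J r ∅ T = T := by
      funext k
      simp [Pj]
    rw [h1]
    exact ⟨le_rfl, fun h => absurd rfl h, hT⟩
  | insert k D hk ih =>
    obtain ⟨ih1, ih2, ih3⟩ := ih
    have hPk : Pj J r D T k = T k := by
      unfold Pj
      rw [if_neg fun h => hk h.1]
    by_cases h1 : loJ J k ≤ T k ∧ T k ≤ r k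
    · have h2 : Pj J r (insert k D) T = Pj J r D T := by
        funext l
        unfold Pj
        by_cases hl : l = k
        · subst hl
          rw [if_neg fun h => h.2 h1, if_neg fun h => h.2 h1]
        · simp [Finset.mem_insert, hl]
      rw [h2]
      exact ⟨ih1, ih2, ih3⟩
    · have h2 : Pj J r (insert k D) T = Function.update (Pj J r D T) k (r k) := by
        funext l
        by_cases hl : l = k
        · subst hl
          rw [Function.update_self]
          unfold Pj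
          rw [if_pos ⟨Finset.mem_insert_self _ _, h1⟩]
        · rw [Function.update_of_ne hl]
          unfold Pj
          simp [Finset.mem_insert, hl]
      have h3 := Ee_step hh r1 rn hC hX ih3 (k := k) (by rw [hPk]; exact h1)
      rw [h2]
      refine ⟨(ih1.trans_lt h3).le, fun _ => ih1.trans_lt h3, fun l => ?_⟩
      by_cases hl : l = k
      · subst hl
        rw [Function.update_self]
        exact rn l
      · rw [Function.update_of_ne hl]
        exact ih3 l

include J0 rn hC in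
theorem Ee_sub : C ⊆ Mo n := by
  intro T hT
  have hTb := hC.box T hT
  obtain ⟨j, hj⟩ := J0
  refine mem_Mo.2 ⟨fun h0 => ?_, fun k => (hTb k).2.trans (rn k)⟩
  have h1 := (hTb j).1
  rw [loJ, if_pos hj, h0] at h1
  exact absurd h1 (by simp)

include hh rn r1 hC hX in
theorem Ee_top {T : Fin d → ℕ} (hT : T ∈ Mo n) (hTC : T ∉ C) : vM h u T < V := by
  obtain ⟨h1, h2, _⟩ := Ee_proj hh r1 rn hC hX (mem_Mo.1 hT).2 Finset.univ
  have h3 : ∀ k, loJ J k ≤ Pj J r Finset.univ T k ∧ Pj J r Finset.univ T k ≤ r k := by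
    intro k
    unfold Pj
    split_ifs with h4
    · exact ⟨loJ_le r1 k, le_rfl⟩
    · by_contra h5
      exact h4 ⟨Finset.mem_univ k, h5⟩
  have h4 := Ee_box hh rn hC hX h3
  by_cases h5 : Pj J r Finset.univ T = T
  · rw [h5] at h4
    exact h4.2 hTC
  · exact (h2 h5).trans_le h4.1

include hh rn r1 hC hX in
/-- The maxima of the classes out of the range are unique. -/
theorem Ee_cls {i : Fin d} {b : ℕ} (hb : ¬ (loJ J i ≤ b ∧ b ≤ r i)) (hbn : b ≤ n i) {m : ℝ}
    {T : Fin d → ℕ} (hT : T ∈ Bx J r i b) (hTm : vM h u T = m)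
    (hm : ∀ U ∈ Bx J r i b, vM h u U ≤ m) {U : Fin d → ℕ} (hU : U ∈ Mo n) (hUi : U i = b)
    (hUT : U ≠ T) : vM h u U < m := by
  classical
  have hn : ∀ T ∈ Bx J r i b, ∀ k, T k ≤ n k := by
    intro T hT k
    obtain ⟨h1, h2⟩ := mem_Bx.1 hT
    by_cases hk : k = i
    · rw [hk, h1]
      exact hbn
    · exact (h2 k hk).2.trans (rn k)
  -- elements of the class box
  have halt : ∀ X ∈ Bx J r i b, vM h u X = m → ∀ S ∈ C, Alt X S := by
    intro X hXB hXm S hS
    by_contra ha
    have hSb := hC.box S hS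
    obtain ⟨V', W', he, _, hlt⟩ := hh.exV u (hn X hXB) (fun k => (hSb k).2.trans (rn k)) ha
    obtain ⟨hXi, hXk⟩ := mem_Bx.1 hXB
    have hother : ∀ k, k ≠ i → (loJ J k ≤ V' k ∧ V' k ≤ r k) ∧
        (loJ J k ≤ W' k ∧ W' k ≤ r k) := by
      intro k hk
      rcases he k with ⟨h1, h2⟩ | ⟨h1, h2⟩ <;> rw [h1, h2]
      · exact ⟨hXk k hk, hSb k⟩
      · exact ⟨hSb k, hXk k hk⟩
    rw [hXm, hX.p1 S hS] at hlt
    rcases he i with ⟨h1, h2⟩ | ⟨h1, h2⟩
    · have h3 := hm V' (mem_Bx.2 ⟨h1.trans hXi, fun k hk => (hother k hk).1⟩)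
      have h4 := (Ee_box hh rn hC hX (T := W') fun k => by
        by_cases hk : k = i
        · rw [hk, h2]
          exact hSb i
        · exact (hother k hk).2).1
      linarith
    · have h3 := hm W' (mem_Bx.2 ⟨h2.trans hXi, fun k hk => (hother k hk).2⟩)
      have h4 := (Ee_box hh rn hC hX (T := V') fun k => by
        by_cases hk : k = i
        · rw [hk, h1]
          exact hSb i
        · exact (hother k hk).1).1
      linarith
  have key : ∀ U ∈ Bx J r i b, U ≠ T → vM h u U < m := by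
    intro U hU hUT
    by_contra hcon
    have hUm : vM h u U = m := le_antisymm (hm U hU) (not_lt.1 hcon)
    obtain ⟨hTi, hTk⟩ := mem_Bx.1 hT
    obtain ⟨hUi, hUk⟩ := mem_Bx.1 hU
    have hTU : Alt T U := by
      by_contra ha
      obtain ⟨V', W', he, _, hlt⟩ := hh.exV u (hn T hT) (hn U hU) ha
      have h5 : V' ∈ Bx J r i b ∧ W' ∈ Bx J r i b := by
        constructor <;> refine mem_Bx.2 ⟨?_, fun k hk => ?_⟩
        · rcases he i with ⟨h1, h2⟩ | ⟨h1, h2⟩ <;> rw [h1]
          exacts [hTi, hUi]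
        · rcases he k with ⟨h1, h2⟩ | ⟨h1, h2⟩ <;> rw [h1]
          exacts [hTk k hk, hUk k hk]
        · rcases he i with ⟨h1, h2⟩ | ⟨h1, h2⟩ <;> rw [h2]
          exacts [hUi, hTi]
        · rcases he k with ⟨h1, h2⟩ | ⟨h1, h2⟩ <;> rw [h2]
          exacts [hUk k hk, hTk k hk]
      have h6 := hm V' h5.1
      have h7 := hm W' h5.2
      linarith
    obtain ⟨lam, _, hw⟩ := hC.wt
    have hnot : ∀ X ∈ Bx J r i b, X ∉ C := by
      intro X hXB hXC
      have h1 := hC.box X hXC i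
      rw [(mem_Bx.1 hXB).1] at h1
      exact hb h1
    refine hUT (hw.uniq hC.pw (Or.inl fun S hS k => (hC.box S hS k).2) (hnot T hT) (hnot U hU)
      (halt T hT hTm) (halt U hU hUm) hTU fun k => ?_).symm
    by_cases hk : k = i
    · left
      rw [hk, hTi, hUi]
    · right
      exact ⟨hC.used k _ (hTk k hk).1 (hTk k hk).2, hC.used k _ (hUk k hk).1 (hUk k hk).2⟩
  obtain ⟨h1, h2, _⟩ := Ee_proj hh r1 rn hC hX (mem_Mo.1 hU).2 (Finset.univ.erase i)
  have h3 : Pj J r (Finset.univ.erase i) U ∈ Bx J r i b := by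
    refine mem_Bx.2 ⟨?_, fun k hk => ?_⟩
    · unfold Pj
      rw [if_neg fun h => Finset.notMem_erase i _ h.1]
      exact hUi
    · unfold Pj
      split_ifs with h4
      · exact ⟨loJ_le r1 k, le_rfl⟩
      · by_contra h5
        exact h4 ⟨Finset.mem_erase.2 ⟨hk, Finset.mem_univ k⟩, h5⟩
  by_cases h5 : Pj J r (Finset.univ.erase i) U = U
  · rw [h5] at h3
    exact key U h3 hUT
  · exact (h2 h5).trans_le (hm _ h3)

include hh J0 r1 rn hC hX in
theorem Ee_isE : IsE n h u (fun i => 2 * u i (r i)) r J C := by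
  classical
  have hV : vP (fun i => 2 * u i (r i)) = V := by
    rw [vP, ← Finset.mul_sum]
    exact hX.p2
  have hBn : ∀ i b, b ≤ n i → ∀ T ∈ Bx J r i b, ∀ k, T k ≤ n k := by
    intro i b hbn T hT k
    obtain ⟨h1, h2⟩ := mem_Bx.1 hT
    by_cases hk : k = i
    · rw [hk, h1]
      exact hbn
    · exact (h2 k hk).2.trans (rn k)
  refine ⟨hX.p0, fun i => rfl, J0, r1, rn, hC, ⟨Ee_sub J0 rn hC, Ee_nonempty hC, ?_, ?_⟩, ?_, ?_, ?_⟩
  · intro T hT
    rw [hV]
    exact hX.p1 T hT
  · intro T hT hTC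
    rw [hV]
    exact Ee_top hh r1 rn hC hX hT hTC
  · intro i b hb hb'
    exact Ee_lt hh r1 rn hC hX hb hb'
  · intro i b hb hbn
    obtain ⟨⟨T, hT, hTm⟩, hm⟩ := hX.p4 i b hb
    obtain ⟨hTi, hTk⟩ := mem_Bx.1 hT
    have hvT : vT u (fun i => 2 * u i (r i)) i b = 2 * u i b + V - 2 * u i (r i) := by
      unfold vT
      have h1 := hV
      unfold vP at h1
      rw [h1]
      ring
    refine ⟨T, mem_Mo.2 ⟨fun h0 => ?_, hBn i b hbn T hT⟩, hTi, hTk, by rw [hTm, hvT], ?_⟩
    · rw [h0, Pi.zero_apply] at hTi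
      omega
    · intro U hU hUi hUT
      rw [hTm]
      exact Ee_cls hh r1 rn hC hX (by omega) hbn hT hTm hm hU hUi hUT
  · intro hJ
    refine ⟨a, fun i hi => ⟨?_, ?_⟩⟩
    · have h1 := hV
      unfold vP at h1
      have h2 : vT u (fun i => 2 * u i (r i)) i 0 = V - 2 * u i (r i) := by
        unfold vT
        rw [h1, hX.p0]
        ring
      have h3 := (Ee_a hh r1 rn hC hX hi).1
      have h4 := (Ee_sum hh r1 rn hC hX).2
      have h5 := Ee_J hh r1 rn hC hX hi
      have h6 := hh.pos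
      have h7 := hX.p2
      rw [h2]
      linarith
    · obtain ⟨⟨T, hT, hTm⟩, hm⟩ := hX.p3 i hi
      obtain ⟨hTi, hTk⟩ := mem_Bx.1 hT
      have hr := r1 i hi
      refine ⟨T, mem_Mo.2 ⟨fun h0 => ?_, hBn i 0 (Nat.zero_le _) T hT⟩, hTi, hTk, hTm, ?_⟩
      · obtain ⟨j, hj, hji⟩ := Finset.exists_mem_ne (s := J) (by omega) i
        have h1 := (hTk j hji).1
        rw [loJ, if_pos hj, h0] at h1
        exact absurd h1 (by simp)
      · intro U hU hUi hUT
        refine Ee_cls hh r1 rn hC hX (fun h1 => ?_) (Nat.zero_le _) hT hTm hm hU hUi hUT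
        rw [loJ, if_pos hi] at h1
        omega

end

/-- Existence of the flags of the second type. -/
theorem exE {n : Fin d → ℕ} {h : (Fin d → ℕ) → ℝ} {c H : ℝ} (hh : HX n h c H) {r : Fin d → ℕ}
    {J : Finset (Fin d)} {C : Finset (Fin d → ℕ)} (J0 : J.Nonempty) (r1 : ∀ i ∈ J, 1 ≤ r i)
    (rn : ∀ i, r i ≤ n i) (hC : Core (loJ J) r r C) : ∃ u sg, IsE n h u sg r J C := by
  obtain ⟨u, V, a, hX⟩ := exists_px (h := h) J0 r1 hC
  exact ⟨u, _, Ee_isE hh J0 r1 rn hC hX⟩

end Pool.Agent.MPb0eA
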