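import Pool.Agent.Lib.MP_b0e20b_ag_X.Rl
import Pool.Agent.Lib.MP_b0e20b_ag_A.Lat
import Pool.Agent.Lib.MP_b0e20b_ag_F.Cnt

/-!
# MP_b0e20b_ag, block X: from the label frame to the flags
-/

set_option autoImplicit false

open scoped BigOperators

namespace Pool.Agent.MPb0eA

open MPb0eF MPb0eQ

variable {d : ℕ} {n : Fin d → ℕ} {hh : (Fin d → ℕ) → ℝ} {u : Fin d → ℕ → ℝ} {sg : Fin d → ℝ}
  {r : Fin d → ℕ} {J : Finset (Fin d)} {C : Finset (Fin d → ℕ)} {w : Un (Kx n) d → ℝ}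

/-- The growth vector with given labels. -/
noncomputable def wL (n : Fin d → ℕ) (u : Fin d → ℕ → ℝ) (sg : Fin d → ℝ) : Un (Kx n) d → ℝ
  | .inl k => u k.1 ((k.2 : ℕ) + 1)
  | .inr i => sg i

theorem sgL_wL : sgL (wL n u sg) = sg := rfl

theorem lb_wL (h0 : ∀ i, u i 0 = 0) {i : Fin d} {b : ℕ} (hb : b ≤ n i) :
    lb (wL n u sg) i b = u i b := by
  rcases Nat.eq_zero_or_pos b with hb0 | hb0
  · subst hb0
    rw [lb_zero, h0]
  · obtain ⟨c, rfl⟩ : ∃ c, b = c + 1 := ⟨b - 1, by omega⟩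
    exact lb_succ (wL n u sg) i ⟨c, hb⟩

private theorem Ty_vM (h0 : ∀ i, u i 0 = 0) {T : Fin d → ℕ} (hT : T ∈ Mo n) :
    vM hh (lb (wL n u sg)) T = vM hh u T := by
  unfold vM
  congr 1
  exact Finset.sum_congr rfl fun i _ => lb_wL h0 ((mem_Mo.1 hT).2 i)

private theorem Ty_vT (h0 : ∀ i, u i 0 = 0) {i : Fin d} {b : ℕ} (hb : b ≤ n i) :
    vT (lb (wL n u sg)) sg i b = vT u sg i b := by
  unfold vT
  rw [lb_wL h0 hb]

private theorem Ty_top (h0 : ∀ i, u i 0 = 0) {V : ℝ} (h : Top n hh u C V) :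
    Top n hh (lb (wL n u sg)) C V :=
  ⟨h.sub, h.ne, fun T hT => (Ty_vM h0 (h.sub hT)).trans (h.eq T hT), fun T hT hT' => by
    rw [Ty_vM h0 hT]
    exact h.lt T hT hT'⟩

theorem IsA.wL (hA : IsA n hh u sg C) : IsA n hh (lb (wL n u sg)) (sgL (wL n u sg)) C := by
  rw [sgL_wL]
  obtain ⟨V, hV, hVp⟩ := hA.top
  refine ⟨lb_zero _, fun i => ?_, fun i b hb => ?_, hA.core, V, Ty_top hA.u0 hV, hVp⟩
  · rw [lb_wL hA.u0 le_rfl]
    exact hA.hsg i
  · rw [lb_wL hA.u0 le_rfl, lb_wL hA.u0 hb.le]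
    exact hA.lt i b hb

theorem IsE.wL (hE : IsE n hh u sg r J C) : IsE n hh (lb (wL n u sg)) (sgL (wL n u sg)) r J C := by
  rw [sgL_wL]
  refine ⟨lb_zero _, fun i => ?_, hE.J0, hE.r1, hE.rn, hE.core, Ty_top hE.u0 hE.top,
    fun i b hb hb' => ?_, fun i b hb hb' => ?_, fun hJ => ?_⟩
  · rw [lb_wL hE.u0 (hE.rn i)]
    exact hE.hsg i
  · rw [lb_wL hE.u0 (hE.rn i), lb_wL hE.u0 hb]
    exact hE.lt i b hb hb'
  · obtain ⟨T, hT, hTi, hT1, hv, hU⟩ := hE.up i b hb hb'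
    refine ⟨T, hT, hTi, hT1, ?_, fun U hUM hUi hUT => ?_⟩
    · rw [Ty_vM hE.u0 hT, Ty_vT hE.u0 hb']
      exact hv
    · rw [Ty_vM hE.u0 hT, Ty_vM hE.u0 hUM]
      exact hU U hUM hUi hUT
  · obtain ⟨a, ha⟩ := hE.dn hJ
    refine ⟨a, fun i hi => ?_⟩
    obtain ⟨h1, T, hT, hTi, hT1, hv, hU⟩ := ha i hi
    refine ⟨?_, T, hT, hTi, hT1, ?_, fun U hUM hUi hUT => ?_⟩
    · rw [Ty_vT hE.u0 (Nat.zero_le _)]
      exact h1
    · rw [Ty_vM hE.u0 hT]
      exact hv
    · rw [Ty_vM hE.u0 hUM]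
      exact hU U hUM hUi hUT

/-- There are levels for every growth vector. -/
theorem exists_lev {Ω Λ : Type} [Fintype Ω] [Fintype Λ] (h : Ω → ℝ) (ex : Ω → Λ → ℤ)
    (w : Λ → ℝ) : ∃ lev : Ω → ℕ, Lev h ex w lev := by
  classical
  have key : ∀ E E', val h ex w E' < val h ex w E →
      (Finset.univ.filter fun F => val h ex w E < val h ex w F).card <
        (Finset.univ.filter fun F => val h ex w E' < val h ex w F).card := by
    intro E E' hE
    apply Finset.card_lt_card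
    refine ⟨fun F hF => ?_, fun hs => ?_⟩
    · rw [Finset.mem_filter] at hF ⊢
      exact ⟨hF.1, hE.trans hF.2⟩
    · have h1 := hs (Finset.mem_filter.2 ⟨Finset.mem_univ E, hE⟩)
      exact lt_irrefl _ (Finset.mem_filter.1 h1).2
  refine ⟨fun E => (Finset.univ.filter fun F => val h ex w E < val h ex w F).card,
    fun E E' hE => ?_, fun E E' hE => ?_⟩
  · rcases lt_trichotomy (val h ex w E) (val h ex w E') with h1 | h1 | h1
    · exact absurd hE (key E' E h1).ne'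
    · exact h1
    · exact absurd hE (key E E' h1).ne
  · rcases lt_trichotomy (val h ex w E) (val h ex w E') with h1 | h1 | h1
    · exact absurd hE (key E' E h1).not_gt
    · simp only [h1] at hE
      exact absurd hE (lt_irrefl _)
    · exact h1

/-- The converse of `lab`: `ζ` is given by `z`, `y`, `q`. -/
theorem inR_of_lf {lev : El (blk n) → ℕ} (hL : Lev (MPb0eA.hE n hh) (eF (blk n)) w lev)
    {z : (Fin d → ℕ) → ℂ} {y : Fin d → ℕ → ℂ} {q : ℂ} (h : LF n hh (lb w) (sgL w) z y q) :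
    ∃ ζ : El (blk n) → ℂ, (∀ E, ζ E ≠ 0) ∧ ∀ j, InR (vF (blk n)) lev j ζ := by
  obtain ⟨ζ, hζ⟩ : ∃ ζ : El (blk n) → ℂ, ζ = fun E => match E with
    | .inl S => z (tup S)
    | .inr (.inl k) => y k.1 ((k.2 : ℕ) + 1)
    | .inr (.inr (.inl i)) => y i 0
    | .inr (.inr (.inr _)) => q := ⟨_, rfl⟩
  have zM : ∀ T ∈ Mo n, ζ (eM T) = z T := by
    intro T hT
    obtain ⟨S, rfl⟩ := tup_surj hT
    rw [eM_tup, hζ]
  have zT : ∀ i, ∀ b ≤ n i, ζ (eT n i b) = y i b := by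
    intro i b hb
    rcases Nat.eq_zero_or_pos b with hb0 | hb0
    · subst hb0
      rw [eT_zero, hζ]
    · obtain ⟨c, rfl⟩ : ∃ c, b = c + 1 := ⟨b - 1, by omega⟩
      have h1 := eT_succ i ⟨c, hb⟩
      rw [Fin.val_mk] at h1
      rw [h1, hζ]
  have zP : ζ (eP n) = q := by
    rw [hζ]
    rfl
  refine ⟨ζ, ?_, fun j Φ hΦ => ?_⟩
  · rintro (S | ⟨i, l⟩ | i | u)
    · rw [← eM_tup, zM _ (tup_mem S)]
      exact h.z0 _ (tup_mem S)
    · rw [← eT_succ, zT i _ l.2]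
      exact h.y0 i _ l.2
    · rw [← eT_zero, zT i _ (Nat.zero_le _)]
      exact h.y0 i _ (Nat.zero_le _)
    · exact (zP.symm ▸ h.q0 : ζ (eP n) ≠ 0)
  · by_cases hex : ∃ E0, lev E0 = j
    swap
    · exact Finset.sum_eq_zero fun E _ => if_neg fun h2 => hex ⟨E, h2⟩
    obtain ⟨E0, rfl⟩ := hex
    have hd : ∀ v : Un (Kx n) d → ℤ, dot Φ v = ∑ l, ((v l : ℤ) : ℚ) * Φ l := fun v =>
      Finset.sum_congr rfl fun l _ => mul_comm _ _
    have dM : ∀ T ∈ Mo n, dot Φ (vF (blk n) (eM T)) = ∑ i, lb Φ i (T i) := fun T hT => by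
      rw [hd, vF_eM Φ hT]
    have dT : ∀ i, ∀ b ≤ n i, dot Φ (vF (blk n) (eT n i b)) = Φ (.inr i) - lb Φ i b :=
      fun i b hb => by rw [hd, vF_eT Φ i hb]
    have dP : dot Φ (vF (blk n) (eP n)) = - ∑ i, Φ (.inr i) := by
      rw [hd, vF_eP Φ]
    have hlow : ∀ E, val (MPb0eA.hE n hh) (eF (blk n)) w E0 <
        val (MPb0eA.hE n hh) (eF (blk n)) w E → dot Φ (vF (blk n) E) = 0 := fun E hE =>
      hΦ E (((lev_iff hL E0 E).2).2 hE)
    have h1 := h.rel (lb Φ) (fun i => Φ (.inr i)) (val (MPb0eA.hE n hh) (eF (blk n)) w E0)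
      (lb_zero Φ) (fun T hT hv => by
        rw [← dM T hT]
        exact hlow _ (by rw [val_eM hT]; exact hv)) (fun i b hb hv => by
        have h2 := hlow (eT n i b) (by rw [val_eT i hb]; exact hv)
        rw [dT i b hb] at h2
        exact sub_eq_zero.1 h2) (fun hv => by
        have h2 := hlow (eP n) (by rw [val_eP]; exact hv)
        rw [dP] at h2
        exact neg_eq_zero.1 h2)
    have h2 : ∀ E : El (blk n), (if lev E = lev E0 then
        ζ E * ((dot Φ (vF (blk n) E) : ℚ) : ℂ) else 0) =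
        if val (MPb0eA.hE n hh) (eF (blk n)) w E = val (MPb0eA.hE n hh) (eF (blk n)) w E0 then
          ζ E * ((dot Φ (vF (blk n) E) : ℚ) : ℂ) else 0 := fun E =>
      if_congr ((lev_iff hL E0 E).1) rfl rfl
    rw [Finset.sum_congr rfl fun E _ => h2 E, sum_El, ← add_assoc]
    refine Eq.trans ?_ h1
    rw [sub_eq_add_neg]
    congr 1
    · congr 1
      · rw [Finset.sum_filter]
        refine Finset.sum_congr rfl fun T hT => ?_
        rw [val_eM hT, dM T hT, zM T hT]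
      · refine Finset.sum_congr rfl fun i _ => ?_
        rw [Finset.sum_filter]
        refine Finset.sum_congr rfl fun b hb => ?_
        have hb' : b ≤ n i := Nat.lt_succ_iff.1 (Finset.mem_range.1 hb)
        rw [val_eT i hb', dT i b hb', zT i b hb']
    · rw [val_eP, dP, zP]
      split_ifs
      · push_cast
        ring
      · simp

/-- The relations which are balanced on the levels are independent. -/
theorem ind_of_gen {Ω Λ : Type} [Fintype Ω] [Fintype Λ] {h : Ω → ℝ} {ex : Ω → Λ → ℤ} {w : Λ → ℝ}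
    {lev : Ω → ℕ} (hG : Gen h ex) (hL : Lev h ex w lev) (c : Ω → ℤ) (hc : BSum lev c)
    (he : ∀ l, ∑ E, c E * ex E l = 0) : c = 0 := by
  refine hG c ?_ he ?_
  · have h1 := bsum_const (R := ℤ) (f := fun _ => 1) hc fun _ _ _ => rfl
    simpa using h1
  · have h1 := bsum_const (R := ℝ) hc hL.1
    have h3 : ∑ F, (c F : ℝ) * val h ex w F = ∑ F, (c F : ℝ) * h F +
        ∑ l, ((∑ F, c F * ex F l : ℤ) : ℝ) * w l := by
      simp only [val, mul_add, Finset.sum_add_distrib, Finset.mul_sum]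
      congr 1
      rw [Finset.sum_comm]
      refine Finset.sum_congr rfl fun l _ => ?_
      push_cast
      rw [Finset.sum_mul]
      exact Finset.sum_congr rfl fun F _ => by ring
    rw [h3] at h1
    simpa [he] using h1

private theorem Ty_of (hG : Gen (MPb0eA.hE n hh) (eF (blk n)))
    (hlf : ∃ z y q, LF n hh (lb w) (sgL w) z y q) {m : ℕ}
    (hcyc : ∀ lev : El (blk n) → ℕ, Lev (MPb0eA.hE n hh) (eF (blk n)) w lev →
      ∃ l0 : Un (Kx n) d, Cyc (eF (blk n)) lev (moF (blk n)) l0 m) :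
    Ty (vF (blk n)) (eF (blk n)) (MPb0eA.hE n hh) (moF (blk n)) w m := by
  obtain ⟨lev, hL⟩ := exists_lev (MPb0eA.hE n hh) (eF (blk n)) w
  obtain ⟨z, y, q, hz⟩ := hlf
  obtain ⟨ζ, hζ, hR⟩ := inR_of_lf hL hz
  obtain ⟨-, hU, hS⟩ := cnt (ex := eF (blk n)) le_rfl hζ hR spanF (ind_of_gen hG hL)
  obtain ⟨l0, hl0⟩ := hcyc lev hL
  exact ⟨lev, ζ, l0, hL, hζ, hR, hU, hS, hl0⟩

/-- The type of a flag of the first type. Proof: `exists_lev`, `IsA.lf`, `inR_of_lf`, `cnt` (with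
`spanF` and `Gen`), `cyc_A` with `m = 1`. -/
theorem ty_A (hd : 0 < d) (hG : Gen (MPb0eA.hE n hh) (eF (blk n)))
    (hA : IsA n hh (lb w) (sgL w) C) :
    Ty (vF (blk n)) (eF (blk n)) (MPb0eA.hE n hh) (moF (blk n)) w 1 :=
  Ty_of hG hA.lf fun _ hL => cyc_A1 hd hL hA.cls

/-- The type of a flag of the second type. -/
theorem ty_E (hG : Gen (MPb0eA.hE n hh) (eF (blk n))) (hE : IsE n hh (lb w) (sgL w) r J C) :
    Ty (vF (blk n)) (eF (blk n)) (MPb0eA.hE n hh) (moF (blk n)) w J.card :=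
  Ty_of hG hE.lf fun _ hL => cyc_B1 hG hL hE.cls

/-- The order of the group is unique. -/
theorem cyc_unique {Ω Λ : Type} [Fintype Ω] [Fintype Λ] [DecidableEq Λ] {ex : Ω → Λ → ℤ}
    {lev : Ω → ℕ} {mo : Ω → Bool} {l l' : Λ} {m m' : ℕ} (h : Cyc ex lev mo l m)
    (h' : Cyc ex lev mo l' m') : m = m' := by
  have key : ∀ {l l' : Λ} {m m' : ℕ}, Cyc ex lev mo l m → Cyc ex lev mo l' m' → m' ∣ m := by
    intro l l' m m' h h'
    obtain ⟨f, hf, hf'⟩ := h'.inv
    -- `f` is divisible by `m'` on the lattice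
    have h1 : ∀ v, InG ex lev v → (m' : ℤ) ∣ ∑ x, v x * f x := by
      rintro v ⟨c, hc, hv⟩
      have h2 : ∀ E E', lev E = lev E' →
          (((∑ x, ex E x * f x : ℤ) : ZMod m') = ((∑ x, ex E' x * f x : ℤ) : ZMod m')) := by
        intro E E' hE
        have h3 := hf' E' E hE.symm
        rw [ZMod.intCast_eq_intCast_iff_dvd_sub]
        simpa only [sub_mul, Finset.sum_sub_distrib] using h3
      have h3 := bsum_const hc h2
      have h4 : ∑ x, v x * f x = ∑ E, c E * ∑ x, ex E x * f x := by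
        simp only [← hv, Finset.sum_mul, Finset.mul_sum]
        rw [Finset.sum_comm]
        exact Finset.sum_congr rfl fun E _ => Finset.sum_congr rfl fun x _ => by ring
      rw [h4, ← ZMod.intCast_zmod_eq_zero_iff_dvd]
      push_cast at h3 ⊢
      exact h3
    obtain ⟨a, ha⟩ := h.gen l'
    obtain ⟨c, hc, hc', -⟩ := h.ord
    have h2 := h1 _ ha
    have h3 := h1 _ ⟨c, hc, hc'⟩
    have e1 : ∑ x, ((if x = l' then 1 else 0) - a * if x = l then 1 else 0) * f x =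
        f l' - a * f l := by
      simp [sub_mul, Finset.sum_sub_distrib]
    have e2 : ∑ x, (if x = l then (m : ℤ) else 0) * f x = m * f l := by
      simp
    rw [e1, hf] at h2
    rw [e2] at h3
    have h4 : (m' : ℤ) ∣ m := by
      have h5 : (m : ℤ) = m * (1 - a * f l) + a * (m * f l) := by ring
      rw [h5]
      exact dvd_add (dvd_mul_of_dvd_right h2 _) (dvd_mul_of_dvd_right h3 _)
    exact_mod_cast h4
  exact Nat.dvd_antisymm (key h' h) (key h h')

end Pool.Agent.MPb0eA
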