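import Pool.Agent.Lib.MP_b0e20b_ag_X.Ea
import Pool.Agent.Lib.MP_b0e20b_ag_X.Ee
import Pool.Agent.Lib.MP_b0e20b_ag_X.Ty
import Pool.Agent.Lib.MP_b0e20b_ag_G.CellD

/-!
# MP_b0e20b_ag, block X: existence of the flags of all cells
-/

set_option autoImplicit false

open scoped BigOperators

namespace Pool.Agent.MPb0eA

open MPb0eF MPb0eQ

variable {d : ℕ} {n : Fin d → ℕ} {hh : (Fin d → ℕ) → ℝ}

/-- Every cell carries a flag. -/
theorem hex (hd : 0 < d) (hn : ∀ i, 1 ≤ n i) {c H : ℝ} (hX : HX n hh c H)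
    (hG : Gen (MPb0eA.hE n hh) (eF (blk n))) (e : Cel d) (he : IsCel n e) :
    ∃ w, Ty (vF (blk n)) (eF (blk n)) (MPb0eA.hE n hh) (moF (blk n)) w (mu e) ∧ Tp n hh w e := by
  obtain ⟨J, r, C⟩ := e
  rcases he with ⟨h1, h2, h3⟩ | ⟨h1, h2, h3, h4⟩
  · have h1' : J = ∅ := h1
    have hC : MPb0eA.Core 0 n 0 C := ⟨h3.pw, h3.inB, h3.used, by
      obtain ⟨lam, h5, h6⟩ := h3.wt
      exact ⟨lam, h6, h5⟩⟩
    obtain ⟨u, sg, hA⟩ := exA hd hn hX hC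
    have hA' := hA.wL
    refine ⟨MPb0eA.wL n u sg, ?_, ?_⟩
    · have h5 : mu (J, r, C) = 1 := if_pos h1'
      rw [h5]
      exact ty_A hd hG hA'
    · obtain ⟨V, hV, _⟩ := hA'.top
      refine ⟨V, fun T hT => ?_, hV.cf⟩
      by_cases hTC : T ∈ C
      · exact (hV.eq T hTC).le
      · exact (hV.lt T hT hTC).le
  · have h1' : ¬ J = ∅ := h1
    have hC : MPb0eA.Core (loJ J) r r C := ⟨h4.pw, h4.inB, h4.used, by
      obtain ⟨lam, h5, h6⟩ := h4.wt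
      exact ⟨lam, h6, h5⟩⟩
    obtain ⟨u, sg, hE⟩ := exE hX (Finset.nonempty_iff_ne_empty.2 h1') h2 h3 hC
    have hE' := hE.wL
    refine ⟨MPb0eA.wL n u sg, ?_, ?_⟩
    · have h5 : mu (J, r, C) = J.card := if_neg h1'
      rw [h5]
      exact ty_E hG hE'
    · refine ⟨_, fun T hT => ?_, hE'.top.cf⟩
      by_cases hTC : T ∈ C
      · exact (hE'.top.eq T hTC).le
      · exact (hE'.top.lt T hT hTC).le

end Pool.Agent.MPb0eA
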