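import Pool.Agent.Lib.MP_b0e20b_ag_A.LabD
import Pool.Agent.Lib.MP_b0e20b_ag_A.AltQ
import Pool.Agent.Lib.MP_b0e20b_ag_A.AltX

/-!
# MP_b0e20b_ag, block X (existence of all flags): definitions

A flag of the first type is given by a core `C` of the box `0, ..., n` with base point `0`, a flag of
the second type by `r`, a nonempty set `J` of factors with `1 ≤ r i` for `i ∈ J`, and a core `C` of
the box with the corners `loJ J` and `r` and the base point `r`.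
-/

set_option autoImplicit false

open scoped BigOperators

namespace Pool.Agent.MPb0eA

variable {d : ℕ}

/-- The cores of the box with the corners `lo` and `hi` with the base point `p`. -/
structure Core (lo hi p : Fin d → ℕ) (C : Finset (Fin d → ℕ)) : Prop where
  pw : Pw C
  box : ∀ T ∈ C, ∀ i, lo i ≤ T i ∧ T i ≤ hi i
  used : ∀ i b, lo i ≤ b → b ≤ hi i → ∃ T ∈ C, T i = b
  wt : ∃ lam : (Fin d → ℕ) → ℝ, (∀ T ∈ C, lam T ≠ 0) ∧ Wp C lam p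

/-- The lower corner for the set `J`. -/
def loJ (J : Finset (Fin d)) (i : Fin d) : ℕ := if i ∈ J then 1 else 0

/-- The family `C` is the set of the monomials with the maximal value `V`. -/
structure Top (n : Fin d → ℕ) (h : (Fin d → ℕ) → ℝ) (u : Fin d → ℕ → ℝ)
    (C : Finset (Fin d → ℕ)) (V : ℝ) : Prop where
  sub : C ⊆ Mo n
  ne : C.Nonempty
  eq : ∀ T ∈ C, vM h u T = V
  lt : ∀ T ∈ Mo n, T ∉ C → vM h u T < V

/-- Flags of the first type. -/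
structure IsA (n : Fin d → ℕ) (h : (Fin d → ℕ) → ℝ) (u : Fin d → ℕ → ℝ) (sg : Fin d → ℝ)
    (C : Finset (Fin d → ℕ)) : Prop where
  u0 : ∀ i, u i 0 = 0
  hsg : ∀ i, sg i = 2 * u i (n i)
  lt : ∀ i b, b < n i → u i b < u i (n i)
  core : Core 0 n 0 C
  top : ∃ V, Top n h u C V ∧ vP sg < V

/-- Flags of the second type. -/
structure IsE (n : Fin d → ℕ) (h : (Fin d → ℕ) → ℝ) (u : Fin d → ℕ → ℝ) (sg : Fin d → ℝ)
    (r : Fin d → ℕ) (J : Finset (Fin d)) (C : Finset (Fin d → ℕ)) : Prop where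
  u0 : ∀ i, u i 0 = 0
  hsg : ∀ i, sg i = 2 * u i (r i)
  J0 : J.Nonempty
  r1 : ∀ i ∈ J, 1 ≤ r i
  rn : ∀ i, r i ≤ n i
  core : Core (loJ J) r r C
  top : Top n h u C (vP sg)
  lt : ∀ i b, b ≤ n i → b ≠ r i → u i b < u i (r i)
  up : ∀ i b, r i < b → b ≤ n i → ∃ T ∈ Mo n, T i = b ∧
    (∀ j, j ≠ i → loJ J j ≤ T j ∧ T j ≤ r j) ∧ vM h u T = vT u sg i b ∧
    ∀ U ∈ Mo n, U i = b → U ≠ T → vM h u U < vM h u T
  dn : 2 ≤ J.card → ∃ a, ∀ i ∈ J, vT u sg i 0 < a ∧ ∃ T ∈ Mo n, T i = 0 ∧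
    (∀ j, j ≠ i → loJ J j ≤ T j ∧ T j ≤ r j) ∧ vM h u T = a ∧
    ∀ U ∈ Mo n, U i = 0 → U ≠ T → vM h u U < a

/-- The heights. -/
structure HX (n : Fin d → ℕ) (h : (Fin d → ℕ) → ℝ) (c H : ℝ) : Prop where
  pos : 0 < c
  big : 20 * (d + 1) * c < H
  h0 : h 0 = H
  lo : ∀ T : Fin d → ℕ, (∀ i, T i ≤ n i) → H - c ≤ h T ∧ h T ≤ H
  dec : ∀ T : Fin d → ℕ, (∀ i, T i ≤ n i) → ∀ i b, b < T i → h T < h (Function.update T i b)
  ex : ∀ T U : Fin d → ℕ, (∀ i, T i ≤ n i) → (∀ i, U i ≤ n i) → ¬ Alt T U →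
    ∃ V W, Exc T U V W ∧ Alt V W ∧ (∀ i, V i ≤ n i) ∧ (∀ i, W i ≤ n i) ∧ h T + h U < h V + h W

end Pool.Agent.MPb0eA
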