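import Pool.Agent.Lib.MP_b0e20b_ag_F.Cnt

/-!
# MP_b0e20b_ag, block X: relations of all levels from adapted forms
-/

set_option autoImplicit false

open scoped BigOperators Topology

namespace Pool.Agent.MPb0eF

variable {Ω Ρ ι : Type} [Fintype Ω] [Fintype Ρ] [Fintype ι]

theorem dot_sum (φ : ι → Ρ → ℚ) (a : ι → ℚ) (v : Ρ → ℤ) :
    dot (fun ρ => ∑ l, a l * φ l ρ) v = ∑ l, a l * dot (φ l) v := by
  unfold dot
  simp_rw [Finset.mul_sum, Finset.sum_mul]
  rw [Finset.sum_comm]
  refine Finset.sum_congr rfl fun l _ => Finset.sum_congr rfl fun ρ _ => ?_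
  ring

/-- Adapted forms: the forms `φ l` span all forms, `φ l` vanishes on the elements of level smaller
than `y l`, is a relation with the coefficients `ζ` on the level `y l`, and the forms which belong
to a level are linearly independent on this level. Then `ζ` is a relation on all levels. -/
theorem inR_of_adapted {vec : Ω → Ρ → ℤ} {lev : Ω → ℕ} {ζ : Ω → ℂ} (φ : ι → Ρ → ℚ) (y : ι → ℕ)
    (span : ∀ ψ : Ρ → ℚ, ∃ a : ι → ℚ, ∀ ρ, ψ ρ = ∑ l, a l * φ l ρ)
    (low : ∀ l E, dot (φ l) (vec E) ≠ 0 → y l ≤ lev E)
    (rel : ∀ l, ∑ E, (if lev E = y l then ζ E * ((dot (φ l) (vec E) : ℚ) : ℂ) else 0) = 0)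
    (ind : ∀ (j : ℕ) (a : ι → ℚ), (∀ l, y l ≠ j → a l = 0) →
      (∀ E, lev E = j → ∑ l, a l * dot (φ l) (vec E) = 0) → a = 0) (j : ℕ) :
    InR vec lev j ζ := by
  classical
  intro ψ hψ
  obtain ⟨a, ha⟩ := span ψ
  have hval : ∀ E, dot ψ (vec E) = ∑ l, a l * dot (φ l) (vec E) := by
    intro E
    rw [← dot_sum]
    congr 1
    funext ρ
    exact ha ρ
  -- the coefficients of smaller level vanish
  have key : ∀ j' : ℕ, j' ≤ j → ∀ l, y l < j' → a l = 0 := by
    intro j'
    induction j' with
    | zero => intro _ l hl; exact absurd hl (Nat.not_lt_zero _)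
    | succ j' ih =>
      intro hj' l hl
      have h1 := ih (by omega)
      rcases Nat.lt_succ_iff_lt_or_eq.1 hl with h2 | h2
      · exact h1 l h2
      · have h3 := ind j' (fun l => if y l = j' then a l else 0) (by
          intro l hl; simp [hl]) (by
          intro E hE
          have h4 := hψ E (by omega)
          rw [hval E] at h4
          refine (Finset.sum_congr rfl fun l _ => ?_).trans h4
          by_cases h5 : y l = j'
          · simp [h5]
          · simp only [h5, if_false]
            rcases lt_or_gt_of_ne h5 with h6 | h6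
            · rw [h1 l h6]
            · by_cases h7 : dot (φ l) (vec E) = 0
              · rw [h7, mul_zero, mul_zero]
              · have := low l E h7
                omega)
        have h4 := congrFun h3 l
        simpa [h2] using h4
  have h0 := key j le_rfl
  -- the relation
  have h1 : ∀ E, (if lev E = j then ζ E * ((dot ψ (vec E) : ℚ) : ℂ) else 0) =
      ∑ l, (a l : ℂ) * (if lev E = j then ζ E * ((dot (φ l) (vec E) : ℚ) : ℂ) else 0) := by
    intro E
    split_ifs with hE
    · rw [hval E]
      push_cast
      rw [Finset.mul_sum]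
      refine Finset.sum_congr rfl fun l _ => ?_
      ring
    · simp
  rw [Finset.sum_congr rfl fun E _ => h1 E, Finset.sum_comm]
  refine Finset.sum_eq_zero fun l _ => ?_
  rw [← Finset.mul_sum]
  rcases lt_trichotomy (y l) j with h2 | h2 | h2
  · rw [h0 l h2]
    simp
  · have h3 := rel l
    rw [h2] at h3
    rw [h3, mul_zero]
  · have h3 : ∀ E, (if lev E = j then ζ E * ((dot (φ l) (vec E) : ℚ) : ℂ) else 0) = 0 := by
      intro E
      split_ifs with hE
      · by_cases h7 : dot (φ l) (vec E) = 0
        · rw [h7]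
          simp
        · have := low l E h7
          omega
      · rfl
    rw [Finset.sum_congr rfl fun E _ => h3 E]
    simp

end Pool.Agent.MPb0eF
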