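import Pool.Agent.Lib.MP_b0e20b_ag_X.XD

/-!
# MP_b0e20b_ag, block X: functions on an alternating family are sums over the coordinates
-/

set_option autoImplicit false

open scoped BigOperators

namespace Pool.Agent.MPb0eA

variable {d : ℕ}

/-- Every function on a pairwise alternating family is a sum over the coordinates. Proof: the
linear map `y ↦ (∑ i, y i (T i))_T` is surjective, since a linear form which vanishes on its range
is zero by `Pw.indep` (its coefficients have zero marginals; `0 < d` gives the total sum). -/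
theorem exists_y (hd : 0 < d) {C : Finset (Fin d → ℕ)} (hC : Pw C) (f : (Fin d → ℕ) → ℝ) :
    ∃ y : Fin d → ℕ → ℝ, ∀ T ∈ C, ∑ i, y i (T i) = f T := by
  classical
  set Φ : (Fin d → ℕ → ℝ) →ₗ[ℝ] (C → ℝ) :=
    { toFun := fun y T => ∑ i, y i (T.1 i)
      map_add' := fun y y' => by
        funext T
        simp only [Pi.add_apply]
        exact Finset.sum_add_distrib
      map_smul' := fun a y => by
        funext T
        simp only [Pi.smul_apply, smul_eq_mul, RingHom.id_apply]
        exact (Finset.mul_sum _ _ _).symm } with hΦ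
  have hs : LinearMap.range Φ = ⊤ := by
    by_contra hne
    obtain ⟨g, hg0, hg⟩ := Submodule.exists_le_ker_of_lt_top _ (lt_top_iff_ne_top.2 hne)
    apply hg0
    set c : (Fin d → ℕ) → ℝ := fun T => if h : T ∈ C then
      g (fun U => if (⟨T, h⟩ : C) = U then 1 else 0) else 0 with hc
    have hgs : ∀ x : C → ℝ, g x = ∑ T : C, x T * c T := by
      intro x
      rw [LinearMap.pi_apply_eq_sum_univ g x]
      refine Finset.sum_congr rfl fun T _ => ?_
      rw [smul_eq_mul, hc]
      simp only [T.2, dif_pos]
    have hy : ∀ y : Fin d → ℕ → ℝ, ∑ T ∈ C, (∑ i, y i (T i)) * c T = 0 := by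
      intro y
      have h1 : g (Φ y) = 0 := LinearMap.mem_ker.1 (hg (LinearMap.mem_range_self Φ y))
      rw [hgs] at h1
      rw [← Finset.sum_coe_sort C fun T => (∑ i, y i (T i)) * c T]
      exact h1
    have h0 := hC.indep c (by
      have h1 := hy fun i _ => if i = ⟨0, hd⟩ then 1 else 0
      have h2 : ∀ T ∈ C, (∑ i : Fin d, (if i = ⟨0, hd⟩ then (1 : ℝ) else 0)) * c T = c T := by
        intro T _
        rw [Finset.sum_ite_eq' Finset.univ (⟨0, hd⟩ : Fin d), if_pos (Finset.mem_univ _), one_mul]
      rwa [Finset.sum_congr rfl h2] at h1) (by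
      intro i b
      have h1 := hy fun i' b' => if i' = i ∧ b' = b then 1 else 0
      have h2 : ∀ T ∈ C, (∑ i' : Fin d, (if i' = i ∧ T i' = b then (1 : ℝ) else 0)) * c T =
          if T i = b then c T else 0 := by
        intro T _
        rw [Finset.sum_eq_single i]
        · by_cases h3 : T i = b
          · rw [if_pos ⟨rfl, h3⟩, if_pos h3, one_mul]
          · rw [if_neg (fun h4 => h3 h4.2), if_neg h3, zero_mul]
        · intro j _ hj
          exact if_neg fun h4 => hj h4.1
        · intro h4
          exact absurd (Finset.mem_univ i) h4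
      rw [Finset.sum_congr rfl h2, ← Finset.sum_filter] at h1
      exact h1)
    refine LinearMap.ext fun x => ?_
    rw [hgs, LinearMap.zero_apply]
    exact Finset.sum_eq_zero fun T _ => by rw [h0 T.1 T.2, mul_zero]
  have h1 : (fun T : C => f T.1) ∈ LinearMap.range Φ := by
    rw [hs]
    exact Submodule.mem_top
  obtain ⟨y, hy⟩ := h1
  exact ⟨y, fun T hT => congrFun hy ⟨T, hT⟩⟩

end Pool.Agent.MPb0eA
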