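import Pool.Agent.Lib.MP_b0e20b_ag_X.Ua
import Pool.Agent.Lib.MP_b0e20b_ag_X.Yx

/-!
# MP_b0e20b_ag, block X: outside a core the values are smaller
-/

set_option autoImplicit false

open scoped BigOperators

namespace Pool.Agent.MPb0eA

variable {d : ℕ}

private theorem dom_ex (T : Fin d → ℕ) (U V W : Fin d → ℕ) (h : Exc T U V W) (i : Fin d) (b : ℕ) :
    (if T i = b then (1 : ℤ) else 0) + (if U i = b then 1 else 0) =
      (if V i = b then 1 else 0) + (if W i = b then 1 else 0) := by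
  rcases h i with ⟨h1, h2⟩ | ⟨h1, h2⟩
  · rw [h1, h2]
  · rw [h1, h2, add_comm]

/-- Among the multisets with given marginals the alternating one has the largest sum of heights. -/
theorem alt_max {B : Finset (Fin d → ℕ)} {h : (Fin d → ℕ) → ℝ}
    (hex : ∀ T ∈ B, ∀ U ∈ B, ¬ Alt T U → ∃ V ∈ B, ∃ W ∈ B, Exc T U V W ∧ h T + h U < h V + h W)
    {m m' : (Fin d → ℕ) → ℤ} (h0 : ∀ T ∈ B, 0 ≤ m T) (h0' : ∀ T ∈ B, 0 ≤ m' T) (hP' : PwM B m')
    (hs : ∑ T ∈ B, m T = ∑ T ∈ B, m' T)
    (hb : ∀ i b, ∑ T ∈ B with T i = b, m T = ∑ T ∈ B with T i = b, m' T)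
    (hne : ∃ T ∈ B, m T ≠ m' T) :
    ∑ T ∈ B, (m T : ℝ) * h T < ∑ T ∈ B, (m' T : ℝ) * h T := by
  classical
  set N : ℤ := ∑ T ∈ B, m T with hN
  set S : Set ((Fin d → ℕ) → ℤ) := {f | (∀ T, T ∉ B → f T = 0) ∧ (∀ T ∈ B, 0 ≤ f T) ∧
    ∑ T ∈ B, f T = N ∧ ∀ i b, ∑ T ∈ B with T i = b, f T = ∑ T ∈ B with T i = b, m T} with hS
  have hfin : S.Finite := by
    refine Set.Finite.of_finite_image (f := fun (f : (Fin d → ℕ) → ℤ) (x : B) => f x)
      ((Set.finite_Icc (0 : B → ℤ) (fun _ => N)).subset ?_) ?_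
    · rintro g ⟨f, ⟨_, hf0, hfs, _⟩, rfl⟩
      refine ⟨fun x => hf0 x x.2, fun x => ?_⟩
      change f x ≤ N
      rw [← hfs]
      exact Finset.single_le_sum hf0 x.2
    · intro f hf g hg hfg
      funext T
      by_cases hT : T ∈ B
      · exact congrFun hfg ⟨T, hT⟩
      · rw [hf.1 T hT, hg.1 T hT]
  -- a maximal multiset is alternating
  have hmax : ∀ f ∈ S, (∀ g ∈ S, ∑ T ∈ B, (g T : ℝ) * h T ≤ ∑ T ∈ B, (f T : ℝ) * h T) →
      PwM B f := by
    intro f hf hfm T hT U hU hT0 hU0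
    by_contra hna
    obtain ⟨V, hV, W, hW, he, hlt⟩ := hex T hT U hU hna
    have hTU : T ≠ U := fun h1 => hna (h1 ▸ Alt.refl T)
    set g : (Fin d → ℕ) → ℤ := fun X => f X + ((if X = V then 1 else 0) +
      (if X = W then 1 else 0)) - ((if X = T then 1 else 0) + (if X = U then 1 else 0)) with hg
    have hsum : ∀ (P : (Fin d → ℕ) → Prop) [DecidablePred P], ∑ X ∈ B with P X, g X =
        ∑ X ∈ B with P X, f X + ((if P V then 1 else 0) + (if P W then 1 else 0)) -
          ((if P T then 1 else 0) + (if P U then 1 else 0)) := by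
      intro P _
      simp only [hg, Finset.sum_sub_distrib, Finset.sum_add_distrib, Finset.sum_ite_eq',
        Finset.mem_filter, hT, hU, hV, hW, true_and]
    have hgS : g ∈ S := by
      refine ⟨fun X hX => ?_, fun X hX => ?_, ?_, fun i b => ?_⟩
      · have h1 : X ≠ T := fun h => hX (h ▸ hT)
        have h2 : X ≠ U := fun h => hX (h ▸ hU)
        have h3 : X ≠ V := fun h => hX (h ▸ hV)
        have h4 : X ≠ W := fun h => hX (h ▸ hW)
        simp only [hg, h1, h2, h3, h4, if_false, hf.1 X hX]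
        norm_num
      · have h1 := hf.2.1 X hX
        have h2 := hf.2.1 T hT
        have h3 := hf.2.1 U hU
        simp only [hg]
        by_cases hXT : X = T
        · subst hXT
          rw [if_pos rfl, if_neg hTU]
          split_ifs <;> omega
        · by_cases hXU : X = U
          · subst hXU
            rw [if_neg hXT, if_pos rfl]
            split_ifs <;> omega
          · rw [if_neg hXT, if_neg hXU]
            split_ifs <;> omega
      · have h1 := hsum (fun _ => True)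
        simp only [Finset.filter_true, if_true] at h1
        rw [h1, hf.2.2.1]
        ring
      · rw [hsum (fun X => X i = b), hf.2.2.2 i b, dom_ex T U V W he i b]
        ring
    have h1 := hfm g hgS
    have h2 : ∑ X ∈ B, (g X : ℝ) * h X = ∑ X ∈ B, (f X : ℝ) * h X + (h V + h W) -
        (h T + h U) := by
      have h3 : ∀ X ∈ B, (g X : ℝ) * h X = (f X : ℝ) * h X +
          ((if X = V then h X else 0) + (if X = W then h X else 0)) -
          ((if X = T then h X else 0) + (if X = U then h X else 0)) := by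
        intro X _
        simp only [hg]
        push_cast
        have e : ∀ Y : Fin d → ℕ, (if X = Y then (1 : ℝ) else 0) * h X =
            if X = Y then h X else 0 := by
          intro Y
          split_ifs <;> ring
        rw [← e V, ← e W, ← e T, ← e U]
        ring
      rw [Finset.sum_congr rfl h3]
      simp only [Finset.sum_sub_distrib, Finset.sum_add_distrib, Finset.sum_ite_eq', hT, hU, hV,
        hW, if_true]
    linarith
  -- the multisets `m` and `m'` in `S`
  have hcut : ∀ f : (Fin d → ℕ) → ℤ, (∀ T ∈ B, 0 ≤ f T) → ∑ T ∈ B, f T = N →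
      (∀ i b, ∑ T ∈ B with T i = b, f T = ∑ T ∈ B with T i = b, m T) →
        (fun T => if T ∈ B then f T else 0) ∈ S := by
    intro f hf0 hfs hfb
    refine ⟨fun T hT => if_neg hT, fun T hT => ?_, ?_, fun i b => ?_⟩
    · simp only [hT, if_true]
      exact hf0 T hT
    · rw [← hfs]
      exact Finset.sum_congr rfl fun T hT => if_pos hT
    · rw [← hfb i b]
      exact Finset.sum_congr rfl fun T hT => if_pos (Finset.mem_filter.1 hT).1
  have hmS := hcut m h0 rfl fun _ _ => rfl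
  have hval : ∀ f : (Fin d → ℕ) → ℤ, ∑ T ∈ B, (((if T ∈ B then f T else 0 : ℤ)) : ℝ) * h T =
      ∑ T ∈ B, (f T : ℝ) * h T := by
    intro f
    exact Finset.sum_congr rfl fun T hT => by rw [if_pos hT]
  obtain ⟨f, hf, hfm⟩ := Set.exists_max_image S (fun f => ∑ T ∈ B, (f T : ℝ) * h T) hfin ⟨_, hmS⟩
  have hua : ∀ g ∈ S, PwM B g → ∀ T ∈ B, g T = m' T := by
    intro g hg hgP
    refine ua hg.2.1 h0' hgP hP' (by rw [hg.2.2.1, hs]) fun i b => ?_
    rw [hg.2.2.2 i b, hb i b]
  have hf' := hua f hf (hmax f hf hfm)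
  have h1 : ∑ T ∈ B, (f T : ℝ) * h T = ∑ T ∈ B, (m' T : ℝ) * h T :=
    Finset.sum_congr rfl fun T hT => by rw [hf' T hT]
  have h2 := hfm _ hmS
  simp only [hval] at h2
  rw [h1] at h2
  refine lt_of_le_of_ne h2 fun h3 => ?_
  obtain ⟨T, hT, hTne⟩ := hne
  have h4 := hmax _ hmS fun g hg => by
    have h5 := hfm g hg
    rw [hval m, h3, ← h1]
    exact h5
  have h5 := hua _ hmS h4 T hT
  simp only [hT, if_true] at h5
  exact hTne h5

/-- Integral barycentric coordinates. -/
theorem Con.coef {C : Finset (Fin d → ℕ)} {lo r : Fin d → ℕ} (hcon : Con C lo r)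
    (hC : C.Nonempty) (hCr : ∀ S ∈ C, ∀ i, lo i ≤ S i ∧ S i ≤ r i) {T : Fin d → ℕ}
    (hT : ∀ i, lo i ≤ T i ∧ T i ≤ r i) :
    ∃ c : (Fin d → ℕ) → ℤ, ∑ S ∈ C, c S = 1 ∧
      ∀ i b, ∑ S ∈ C with S i = b, c S = if T i = b then 1 else 0 := by
  classical
  let Γ : AddSubgroup (Fin d → ℕ → ℤ) :=
    { carrier := {x | ∃ c : (Fin d → ℕ) → ℤ, ∑ S ∈ C, c S = 0 ∧
        ∀ i b, ∑ S ∈ C with S i = b, c S = x i b}
      add_mem' := by
        rintro x y ⟨c, hc, hc'⟩ ⟨e, he, he'⟩
        refine ⟨fun S => c S + e S, by rw [Finset.sum_add_distrib, hc, he, add_zero],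
          fun i b => ?_⟩
        rw [Finset.sum_add_distrib, hc' i b, he' i b]
        rfl
      zero_mem' := ⟨fun _ => 0, by simp, fun i b => by simp⟩
      neg_mem' := by
        rintro x ⟨c, hc, hc'⟩
        refine ⟨fun S => -c S, by rw [Finset.sum_neg_distrib, hc, neg_zero], fun i b => ?_⟩
        rw [Finset.sum_neg_distrib, hc' i b]
        rfl }
  let e : Fin d → ℕ → (Fin d → ℕ → ℤ) := fun i b j c => if j = i ∧ c = b then 1 else 0
  have he : ∀ (T : Fin d → ℕ) (i : Fin d) (b : ℕ), (∑ k, e k (T k)) i b =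
      if T i = b then 1 else 0 := by
    intro T i b
    rw [Finset.sum_apply, Finset.sum_apply, Finset.sum_eq_single i]
    · change (if i = i ∧ b = T i then (1 : ℤ) else 0) = _
      by_cases h : T i = b
      · rw [if_pos ⟨rfl, h.symm⟩, if_pos h]
      · rw [if_neg fun h1 => h h1.2.symm, if_neg h]
    · intro k _ hk
      exact if_neg fun h1 => hk h1.1.symm
    · intro h
      exact absurd (Finset.mem_univ i) h
  have hΓ : ∀ S ∈ C, ∀ U ∈ C, ∑ k, e k (S k) - ∑ k, e k (U k) ∈ Γ := by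
    intro S hS U hU
    refine ⟨fun X => (if X = S then 1 else 0) - (if X = U then 1 else 0), ?_, fun i b => ?_⟩
    · rw [Finset.sum_sub_distrib, Finset.sum_ite_eq', Finset.sum_ite_eq', if_pos hS, if_pos hU,
        sub_self]
    · rw [Finset.sum_sub_distrib, Finset.sum_ite_eq', Finset.sum_ite_eq', Pi.sub_apply,
        Pi.sub_apply, he S i b, he U i b]
      simp only [Finset.mem_filter, hS, hU, true_and]
  have h1 := hcon (((Fin d → ℕ → ℤ) ⧸ Γ)) (fun i b => (QuotientAddGroup.mk (e i b))) (by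
    intro S hS U hU
    have h2 := hΓ S hS U hU
    have h3 : (QuotientAddGroup.mk' Γ) (∑ k, e k (S k)) =
        (QuotientAddGroup.mk' Γ) (∑ k, e k (U k)) := by
      rw [← sub_eq_zero, ← map_sub]
      exact (QuotientAddGroup.eq_zero_iff _).2 h2
    simpa only [map_sum, QuotientAddGroup.mk'_apply] using h3)
  obtain ⟨S0, hS0⟩ := hC
  have h2 : ∑ k, e k (T k) - ∑ k, e k (S0 k) ∈ Γ := by
    rw [← QuotientAddGroup.eq_zero_iff (N := Γ)]
    change (QuotientAddGroup.mk' Γ) _ = 0
    rw [map_sub, map_sum, map_sum, sub_eq_zero]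
    refine Finset.sum_congr rfl fun k _ => ?_
    exact (h1 k (T k) (hT k).1 (hT k).2).trans (h1 k (S0 k) (hCr S0 hS0 k).1 (hCr S0 hS0 k).2).symm
  obtain ⟨c, hc, hc'⟩ := h2
  refine ⟨fun S => c S + (if S = S0 then 1 else 0), ?_, fun i b => ?_⟩
  · rw [Finset.sum_add_distrib, hc, Finset.sum_ite_eq', if_pos hS0, zero_add]
  · rw [Finset.sum_add_distrib, hc' i b, Finset.sum_ite_eq', Pi.sub_apply, Pi.sub_apply, he, he]
    simp only [Finset.mem_filter, hS0, true_and]
    ring

/-- Outside a family which determines the labels the values are smaller. -/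
theorem dom_con {B C : Finset (Fin d → ℕ)} {lo r : Fin d → ℕ} {h : (Fin d → ℕ) → ℝ}
    {u : Fin d → ℕ → ℝ} {V : ℝ}
    (hex : ∀ T ∈ B, ∀ U ∈ B, ¬ Alt T U → ∃ V ∈ B, ∃ W ∈ B, Exc T U V W ∧ h T + h U < h V + h W)
    (hCB : C ⊆ B) (hC : C.Nonempty) (hP : Pw C) (hcon : Con C lo r)
    (hCr : ∀ S ∈ C, ∀ i, lo i ≤ S i ∧ S i ≤ r i) (hV : ∀ S ∈ C, vM h u S = V)
    {T : Fin d → ℕ} (hTB : T ∈ B) (hT : ∀ i, lo i ≤ T i ∧ T i ≤ r i) (hTC : T ∉ C) :
    vM h u T < V := by
  classical
  obtain ⟨c, hc, hc'⟩ := hcon.coef hC hCr hT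
  set m' : (Fin d → ℕ) → ℤ := fun S => if S ∈ C then max (c S) 0 else 0 with hm'
  set m : (Fin d → ℕ) → ℤ := fun S => (if S ∈ C then max (-(c S)) 0 else 0) +
    (if S = T then 1 else 0) with hm
  have hres : ∀ (f : (Fin d → ℕ) → ℤ) (P : (Fin d → ℕ) → Prop) [DecidablePred P],
      ∑ S ∈ B with P S, (if S ∈ C then f S else 0) = ∑ S ∈ C with P S, f S := by
    intro f P _
    rw [← Finset.sum_filter, Finset.filter_filter]
    refine Finset.sum_congr ?_ fun _ _ => rfl
    ext S
    simp only [Finset.mem_filter]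
    constructor
    · rintro ⟨_, h1, h2⟩
      exact ⟨h2, h1⟩
    · rintro ⟨h1, h2⟩
      exact ⟨hCB h1, h2, h1⟩
  have hmm : ∀ x : ℤ, max x 0 = max (-x) 0 + x := by
    intro x
    rcases le_total x 0 with h1 | h1
    · rw [max_eq_right h1, max_eq_left (by omega)]
      ring
    · rw [max_eq_left h1, max_eq_right (by omega)]
      ring
  have hsum : ∀ (P : (Fin d → ℕ) → Prop) [DecidablePred P],
      ∑ S ∈ C with P S, c S = (if P T then 1 else 0) →
        ∑ S ∈ B with P S, m S = ∑ S ∈ B with P S, m' S := by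
    intro P _ hP1
    simp only [hm, hm']
    rw [Finset.sum_add_distrib, hres, hres, Finset.sum_ite_eq']
    simp only [Finset.mem_filter, hTB, true_and]
    rw [← hP1, ← Finset.sum_add_distrib]
    exact Finset.sum_congr rfl fun S _ => (hmm (c S)).symm
  have key := alt_max hex (m := m) (m' := m') (fun S _ => by
      simp only [hm]
      split_ifs <;> omega) (fun S _ => by
      simp only [hm']
      split_ifs
      · exact le_max_right _ _
      · exact le_rfl) (by
      intro S _ U _ hS hU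
      simp only [hm'] at hS hU
      have h1 : S ∈ C := by
        by_contra h2
        rw [if_neg h2] at hS
        exact hS rfl
      have h2 : U ∈ C := by
        by_contra h2
        rw [if_neg h2] at hU
        exact hU rfl
      exact hP S h1 U h2) (by
      have h1 := hsum (fun _ => True) (by simpa using hc)
      simpa only [Finset.filter_true] using h1) (fun i b => hsum (fun S => S i = b) (hc' i b))
      ⟨T, hTB, by
        simp only [hm, hm', hTC, if_false, if_true]
        norm_num⟩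
  -- translation to values
  have hres' : ∀ f : (Fin d → ℕ) → ℝ, ∑ S ∈ B, (if S ∈ C then f S else 0) = ∑ S ∈ C, f S := by
    intro f
    rw [← Finset.sum_filter]
    refine Finset.sum_congr ?_ fun _ _ => rfl
    ext S
    simp only [Finset.mem_filter]
    exact ⟨fun h1 => h1.2, fun h1 => ⟨hCB h1, h1⟩⟩
  have h1 : ∑ S ∈ B, (m S : ℝ) * h S =
      ∑ S ∈ C, ((max (-(c S)) 0 : ℤ) : ℝ) * h S + h T := by
    rw [← hres']
    have h2 : h T = ∑ S ∈ B, (if S = T then h S else 0) := by
      rw [Finset.sum_ite_eq', if_pos hTB]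
    rw [h2, ← Finset.sum_add_distrib]
    refine Finset.sum_congr rfl fun S _ => ?_
    simp only [hm]
    split_ifs <;> push_cast <;> ring
  have h2 : ∑ S ∈ B, (m' S : ℝ) * h S = ∑ S ∈ C, ((max (c S) 0 : ℤ) : ℝ) * h S := by
    rw [← hres']
    refine Finset.sum_congr rfl fun S _ => ?_
    simp only [hm']
    split_ifs <;> push_cast <;> ring
  have h3 : ∑ S ∈ C, ((max (c S) 0 : ℤ) : ℝ) * h S =
      ∑ S ∈ C, ((max (-(c S)) 0 : ℤ) : ℝ) * h S + ∑ S ∈ C, (c S : ℝ) * h S := by
    rw [← Finset.sum_add_distrib]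
    refine Finset.sum_congr rfl fun S _ => ?_
    rw [hmm (c S)]
    push_cast
    ring
  have h4 : h T < ∑ S ∈ C, (c S : ℝ) * h S := by
    rw [h1, h2, h3] at key
    linarith
  -- the separable part
  have h5 : ∑ S ∈ C, (c S : ℝ) * ∑ i, u i (S i) = ∑ i, u i (T i) := by
    simp_rw [Finset.mul_sum]
    rw [Finset.sum_comm]
    refine Finset.sum_congr rfl fun i _ => ?_
    have h6 : ∑ S ∈ C, (c S : ℝ) * u i (S i) = ∑ b ∈ C.image (fun S => S i),
        ∑ S ∈ C with S i = b, (c S : ℝ) * u i (S i) :=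
      (Finset.sum_fiberwise_of_maps_to (fun S hS => Finset.mem_image_of_mem _ hS) _).symm
    have h7 : ∀ b, ∑ S ∈ C with S i = b, (c S : ℝ) * u i (S i) =
        if T i = b then u i b else 0 := by
      intro b
      have h8 : ∑ S ∈ C with S i = b, (c S : ℝ) * u i (S i) =
          ((∑ S ∈ C with S i = b, c S : ℤ) : ℝ) * u i b := by
        push_cast
        rw [Finset.sum_mul]
        refine Finset.sum_congr rfl fun S hS => ?_
        rw [(Finset.mem_filter.1 hS).2]
      rw [h8, hc' i b]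
      split_ifs <;> simp
    rw [h6, Finset.sum_congr rfl fun b _ => h7 b, Finset.sum_ite_eq]
    refine if_pos ?_
    by_contra h8
    have h9 := hc' i (T i)
    rw [if_pos rfl, Finset.filter_eq_empty_iff.2, Finset.sum_empty] at h9
    · exact absurd h9 (by norm_num)
    · intro S hS h10
      exact h8 (Finset.mem_image.2 ⟨S, hS, h10⟩)
  have h6 : ∑ S ∈ C, (c S : ℝ) * vM h u S = V := by
    have h7 : ∑ S ∈ C, (c S : ℝ) * vM h u S = ((∑ S ∈ C, c S : ℤ) : ℝ) * V := by
      push_cast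
      rw [Finset.sum_mul]
      exact Finset.sum_congr rfl fun S hS => by rw [hV S hS]
    rw [h7, hc]
    simp
  have h7 : ∑ S ∈ C, (c S : ℝ) * vM h u S =
      ∑ S ∈ C, (c S : ℝ) * h S + ∑ S ∈ C, (c S : ℝ) * ∑ i, u i (S i) := by
    rw [← Finset.sum_add_distrib]
    exact Finset.sum_congr rfl fun S _ => by unfold vM; ring
  unfold vM at h7 ⊢
  unfold vM at h6
  rw [h7, h5] at h6
  linarith

/-- A core determines the labels. -/
theorem Core.con' {lo hi p : Fin d → ℕ} {C : Finset (Fin d → ℕ)} (hC : Core lo hi p C)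
    (hp : (∀ T ∈ C, ∀ i, T i ≤ p i) ∨ ∀ i, p i = 0) : Con C lo hi := by
  intro G _ φ hφ i b hb hb'
  obtain ⟨lam, _, hw⟩ := hC.wt
  obtain ⟨T, hT, hTb⟩ := hC.used i b hb hb'
  obtain ⟨U, hU, hUb⟩ := hC.used i (hi i) (hb.trans hb') le_rfl
  have h1 := Wp.conn hC.pw hw hp φ hφ T hT U hU i
  rw [hTb, hUb] at h1
  exact h1

/-- A function with strict exchange on the box `lo, ..., hi` which is constant on a core `C` of the
box is smaller outside of `C`. -/
theorem dom {lo hi p : Fin d → ℕ} {C : Finset (Fin d → ℕ)} (hC : Core lo hi p C)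
    (hp : (∀ T ∈ C, ∀ i, T i ≤ p i) ∨ ∀ i, p i = 0) {v : (Fin d → ℕ) → ℝ} {V : ℝ}
    (hv : ∀ T ∈ C, v T = V)
    (hex : ∀ T U : Fin d → ℕ, (∀ i, lo i ≤ T i ∧ T i ≤ hi i) → (∀ i, lo i ≤ U i ∧ U i ≤ hi i) →
      ¬ Alt T U → ∃ V W, Exc T U V W ∧ Alt V W ∧ v T + v U < v V + v W)
    {T : Fin d → ℕ} (hT : ∀ i, lo i ≤ T i ∧ T i ≤ hi i) (hTC : T ∉ C) : v T < V := by
  classical
  have hmem : ∀ T : Fin d → ℕ, T ∈ Fintype.piFinset (fun i => Finset.Icc (lo i) (hi i)) ↔
      ∀ i, lo i ≤ T i ∧ T i ≤ hi i := by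
    intro T
    rw [Fintype.mem_piFinset]
    simp only [Finset.mem_Icc]
  have hne : C.Nonempty := by
    obtain ⟨lam, _, hw⟩ := hC.wt
    by_contra h
    rw [Finset.not_nonempty_iff_eq_empty] at h
    have h1 := hw.one
    rw [h, Finset.sum_empty] at h1
    exact absurd h1 (by norm_num)
  have h0 : ∀ T : Fin d → ℕ, vM v (fun _ _ => 0) T = v T := by
    intro T
    unfold vM
    simp
  have h1 := dom_con (B := Fintype.piFinset fun i => Finset.Icc (lo i) (hi i)) (C := C) (lo := lo)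
    (r := hi) (h := v) (u := fun _ _ => 0) (V := V) (fun T hT U hU hn => by
      rw [hmem] at hT hU
      obtain ⟨V, W, he, _, hlt⟩ := hex T U hT hU hn
      refine ⟨V, (hmem V).2 fun i => ?_, W, (hmem W).2 fun i => ?_, he, hlt⟩
      · rcases he i with ⟨h1, _⟩ | ⟨h1, _⟩
        · rw [h1]; exact hT i
        · rw [h1]; exact hU i
      · rcases he i with ⟨_, h1⟩ | ⟨_, h1⟩
        · rw [h1]; exact hU i
        · rw [h1]; exact hT i) (fun S hS => (hmem S).2 (hC.box S hS)) hne hC.pw (hC.con' hp)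
    (fun S hS => hC.box S hS) (fun S hS => by rw [h0]; exact hv S hS) ((hmem T).2 hT) hT hTC
  rwa [h0] at h1

end Pool.Agent.MPb0eA
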