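import Pool.Agent.Lib.MP_b0e20b_ag_X.Dom
import Pool.Agent.Lib.MP_b0e20b_ag_A.Val

/-!
# MP_b0e20b_ag, block X: existence of the flags of the first type
-/

set_option autoImplicit false

open scoped BigOperators

namespace Pool.Agent.MPb0eA

variable {d : ℕ}

/-- A tuple which alternates with `0` has at most one nonzero coordinate. -/
theorem Alt.zero_one {T : Fin d → ℕ} (h : Alt 0 T) {i j : Fin d} (hi : T i ≠ 0) (hj : T j ≠ 0) :
    i = j := by
  classical
  have h2 : ∀ i j, i < j → T i ≠ 0 → T j ≠ 0 → False := by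
    intro i j hij hi hj
    have h3 : (Finset.univ.filter fun k => i < k ∧ T k ≠ 0).Nonempty :=
      ⟨j, Finset.mem_filter.2 ⟨Finset.mem_univ _, hij, hj⟩⟩
    set k := (Finset.univ.filter fun k => i < k ∧ T k ≠ 0).min' h3 with hk
    obtain ⟨_, h4, h5⟩ := Finset.mem_filter.1 (Finset.min'_mem _ h3)
    rw [← hk] at h4 h5
    have h6 := h i k h4 (fun h7 => hi h7.symm) (fun h7 => h5 h7.symm) (by
      intro l h7 h8
      change 0 = T l
      by_contra h9
      have h10 := Finset.min'_le (Finset.univ.filter fun k => i < k ∧ T k ≠ 0) l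
        (Finset.mem_filter.2 ⟨Finset.mem_univ _, h7, fun h => h9 h.symm⟩)
      exact absurd h8 (not_lt.2 h10))
    have h7 : T k < (0 : Fin d → ℕ) k := h6.1 (Nat.pos_of_ne_zero hi)
    exact absurd h7 (Nat.not_lt_zero _)
  rcases lt_trichotomy i j with h3 | h3 | h3
  · exact absurd (h2 i j h3 hi hj) id
  · exact h3
  · exact absurd (h2 j i h3 hj hi) id

/-- A core of the box `0, ..., n` does not contain `0`. -/
theorem Core.zero_notMem (hd : 0 < d) {n : Fin d → ℕ} (hn : ∀ i, 1 ≤ n i)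
    {C : Finset (Fin d → ℕ)} (hC : Core 0 n 0 C) : (0 : Fin d → ℕ) ∉ C := by
  classical
  intro h0
  obtain ⟨T, hT, hT1⟩ := hC.used ⟨0, hd⟩ 1 (Nat.zero_le _) (hn _)
  obtain ⟨lam, hl0, hw⟩ := hC.wt
  have h1 := hw.marg ⟨0, hd⟩ 1
  have h2 : C.filter (fun S => S ⟨0, hd⟩ = 1) = {T} := by
    ext S
    rw [Finset.mem_filter, Finset.mem_singleton]
    constructor
    · rintro ⟨hS, hS1⟩
      funext j
      by_cases hj : j = ⟨0, hd⟩
      · rw [hj, hS1, hT1]
      · have h3 : ∀ U ∈ C, U ⟨0, hd⟩ = 1 → U j = 0 := by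
          intro U hU hU1
          by_contra h4
          refine hj ((hC.pw 0 h0 U hU).zero_one h4 ?_)
          rw [hU1]
          exact one_ne_zero
        rw [h3 S hS hS1, h3 T hT hT1]
    · rintro rfl
      exact ⟨hT, hT1⟩
  rw [h2, Finset.sum_singleton] at h1
  refine hl0 T hT (h1.trans (if_neg ?_))
  exact one_ne_zero

/-- Existence of the flags of the first type. Proof: `exists_y` with `f = - h` gives `y`;
`u i b = y i b - y i 0` for `b ≤ n i`, `V = - ∑ i, y i 0`, `dom` for `v = vM h u` (exchange from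
`HX.ex`, the sums over the coordinates are invariant). `0 < u i b ≤ c` for `0 < b`: `S ∈ C` with
`S i = b`, `update S i 0`; `S ∈ C` with `S i = 0`, `update S i b`. `u i b < u i (n i)`: the same with
`S i = n i`, `update S i b` and `HX.dec`. `0 ∉ C`: if `0 ∈ C` then all elements of `C` have at most
one nonzero coordinate, so the marginal of `(i, b)`, `b ≠ 0`, is the weight of `b e_i`, which is
nonzero. `V ≥ H - c` and `vP sg ≤ 2 d c`. -/
theorem exA (hd : 0 < d) {n : Fin d → ℕ} (hn : ∀ i, 1 ≤ n i) {h : (Fin d → ℕ) → ℝ} {c H : ℝ}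
    (hh : HX n h c H) {C : Finset (Fin d → ℕ)} (hC : Core 0 n 0 C) :
    ∃ u sg, IsA n h u sg C := by
  classical
  obtain ⟨y, hy⟩ := exists_y hd hC.pw fun T => -h T
  set u : Fin d → ℕ → ℝ := fun i b => y i b - y i 0 with hu
  set V : ℝ := -∑ i, y i 0 with hV
  have hu0 : ∀ i, u i 0 = 0 := fun i => sub_self _
  have hv : ∀ T ∈ C, vM h u T = V := by
    intro T hT
    have h1 := hy T hT
    have h2 : ∑ i, u i (T i) = ∑ i, y i (T i) - ∑ i, y i 0 := by
      rw [← Finset.sum_sub_distrib]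
    rw [vM, h2, h1, hV]
    ring
  have hbox : ∀ T : Fin d → ℕ, (∀ i, T i ≤ n i) → T ∉ C → vM h u T < V := by
    intro T hT hTC
    refine dom hC (Or.inr fun i => rfl) hv ?_ (fun i => ⟨Nat.zero_le _, hT i⟩) hTC
    intro T U hT hU ha
    obtain ⟨V', W', he, ha', _, _, hlt⟩ := hh.ex T U (fun i => (hT i).2) (fun i => (hU i).2) ha
    refine ⟨V', W', he, ha', ?_⟩
    have h6 : ∑ i, u i (T i) + ∑ i, u i (U i) = ∑ i, u i (V' i) + ∑ i, u i (W' i) := by
      rw [← Finset.sum_add_distrib, ← Finset.sum_add_distrib]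
      refine Finset.sum_congr rfl fun i _ => ?_
      rcases he i with ⟨h7, h8⟩ | ⟨h7, h8⟩
      · rw [h7, h8]
      · rw [h7, h8, add_comm]
    unfold vM
    linarith
  have hle : ∀ T : Fin d → ℕ, (∀ i, T i ≤ n i) → vM h u T ≤ V := by
    intro T hT
    by_cases h1 : T ∈ C
    · exact (hv T h1).le
    · exact (hbox T hT h1).le
  have hin : ∀ T ∈ C, ∀ i, T i ≤ n i := fun T hT i => (hC.box T hT i).2
  have hupd : ∀ T ∈ C, ∀ i b, b ≤ n i → ∀ j, Function.update T i b j ≤ n j := by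
    intro T hT i b hb j
    by_cases hj : j = i
    · subst hj
      rw [Function.update_self]
      exact hb
    · rw [Function.update_of_ne hj]
      exact hin T hT j
  have hub : ∀ i b, b ≤ n i → u i b ≤ c := by
    intro i b hb
    obtain ⟨S, hS, hS0⟩ := hC.used i 0 le_rfl (Nat.zero_le _)
    have h1 := hle _ (hupd S hS i b hb)
    rw [vM_update, hv S hS, hS0, hu0] at h1
    have h2 := (hh.lo S (hin S hS)).2
    have h3 := (hh.lo _ (hupd S hS i b hb)).1
    linarith
  have h0C : (0 : Fin d → ℕ) ∉ C := hC.zero_notMem hd hn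
  have hVH : H < V := by
    have h1 := hbox 0 (fun i => Nat.zero_le _) h0C
    have h2 : vM h u 0 = H := by
      rw [vM, hh.h0]
      have h3 : ∑ i : Fin d, u i ((0 : Fin d → ℕ) i) = 0 :=
        Finset.sum_eq_zero fun i _ => hu0 i
      rw [h3, add_zero]
    rwa [h2] at h1
  refine ⟨u, fun i => 2 * u i (n i), hu0, fun i => rfl, ?_, hC, V, ⟨?_, ?_, hv, ?_⟩, ?_⟩
  · intro i b hb
    obtain ⟨S, hS, hSn⟩ := hC.used i (n i) (Nat.zero_le _) le_rfl
    have h1 := hle _ (hupd S hS i b hb.le)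
    rw [vM_update, hv S hS, hSn] at h1
    have h2 := hh.dec S (hin S hS) i b (by rw [hSn]; exact hb)
    linarith
  · intro T hT
    exact mem_Mo.2 ⟨fun h1 => h0C (h1 ▸ hT), hin T hT⟩
  · obtain ⟨S, hS, _⟩ := hC.used ⟨0, hd⟩ 0 le_rfl (Nat.zero_le _)
    exact ⟨S, hS⟩
  · intro T hT hTC
    exact hbox T (mem_Mo.1 hT).2 hTC
  · have h1 : vP (fun i => 2 * u i (n i)) ≤ ∑ _i : Fin d, 2 * c :=
      Finset.sum_le_sum fun i _ => mul_le_mul_of_nonneg_left (hub i (n i) le_rfl) zero_le_two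
    rw [Finset.sum_const, Finset.card_univ, Fintype.card_fin, nsmul_eq_mul] at h1
    have h2 := hh.big
    have h3 := hh.pos
    have h4 : (0 : ℝ) ≤ d := Nat.cast_nonneg d
    nlinarith

end Pool.Agent.MPb0eA
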