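import Pool.Agent.Lib.MP_b0e20b_ag_X.XD

/-!
# MP_b0e20b_ag, block X: the relations of a flag
-/

set_option autoImplicit false

open scoped BigOperators

namespace Pool.Agent.MPb0eA

variable {d : ℕ} {n : Fin d → ℕ} {h : (Fin d → ℕ) → ℝ} {u : Fin d → ℕ → ℝ} {sg : Fin d → ℝ}
  {r : Fin d → ℕ} {J : Finset (Fin d)} {C : Finset (Fin d → ℕ)}

/-- The family determines the labels. -/
theorem Core.con {lo hi p : Fin d → ℕ} (hC : Core lo hi p C)
    (hp : (∀ T ∈ C, ∀ i, T i ≤ p i) ∨ ∀ i, p i = 0) : Con C lo hi := by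
  intro G _ φ hφ i b hb0 hb
  obtain ⟨lam, _, hw⟩ := hC.wt
  obtain ⟨S, hS, hSi⟩ := hC.used i b hb0 hb
  obtain ⟨T, hT, hTi⟩ := hC.used i (hi i) (hb0.trans hb) le_rfl
  have h1 := hw.conn hC.pw hp φ hφ S hS T hT i
  rw [hSi, hTi] at h1
  exact h1

theorem Top.cf {V : ℝ} (hT : Top n h u C V) : Cf n h u V = C := by
  ext T
  rw [Cf, Finset.mem_filter]
  constructor
  · rintro ⟨h1, h2⟩
    by_contra h3
    exact absurd h2 (hT.lt T h1 h3).ne
  · intro h1
    exact ⟨hT.sub h1, hT.eq T h1⟩

theorem IsA.cls (hA : IsA n h u sg C) : ClsA n h u sg := by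
  obtain ⟨V, hV, _⟩ := hA.top
  refine ⟨hA.hsg, V, ?_⟩
  rw [hV.cf]
  exact hA.core.con (Or.inr fun _ => rfl)

theorem IsE.cls (hE : IsE n h u sg r J C) : ClsB n h u sg r J := by
  refine ⟨hE.J0, hE.r1, hE.rn, hE.hsg, ?_, ?_, ?_, ?_, ?_⟩
  · rw [hE.top.cf]
    exact hE.top.ne
  · rw [hE.top.cf]
    exact hE.core.box
  · rw [hE.top.cf]
    exact hE.core.con (Or.inl fun T hT i => (hE.core.box T hT i).2)
  · intro i b hb hbn
    obtain ⟨T, h1, h2, h3, h4, _⟩ := hE.up i b hb hbn
    exact ⟨T, h1, h2, h3, h4⟩
  · intro i hi j hj hij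
    obtain ⟨a, ha⟩ := hE.dn (Finset.one_lt_card.2 ⟨i, hi, j, hj, hij⟩)
    obtain ⟨_, T, h1, h2, h3, h4, _⟩ := ha i hi
    obtain ⟨_, U, h1', h2', h3', h4', _⟩ := ha j hj
    exact ⟨T, h1, U, h1', h2, h2', h3, h3', h4.trans h4'.symm⟩

/-- The value of `t (i, b)`. -/
private theorem Rl_vT (hsg : ∀ i, sg i = 2 * u i (r i)) (i : Fin d) (b : ℕ) :
    vT u sg i b = vP sg - 2 * (u i (r i) - u i b) := by
  unfold vT vP
  rw [hsg i]
  ring

private theorem Rl_flt (hsg : ∀ i, sg i = 2 * u i (r i)) {i : Fin d} (hr : r i ≤ n i)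
    (hlt : ∀ b, b ≤ n i → b ≠ r i → u i b < u i (r i)) :
    (Finset.range (n i + 1)).filter (fun b => vT u sg i b = vP sg) = {r i} := by
  ext b
  rw [Finset.mem_filter, Finset.mem_range, Finset.mem_singleton, Rl_vT hsg]
  constructor
  · rintro ⟨h1, h2⟩
    by_contra h3
    have h4 := hlt b (by omega) h3
    linarith
  · rintro rfl
    exact ⟨by omega, by ring⟩

/-- The average of a sum over the factors. -/
private theorem Rl_avg {lam : (Fin d → ℕ) → ℝ} {p : Fin d → ℕ} (hw : Wp C lam p)
    (φ : Fin d → ℕ → ℚ) :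
    ∑ T ∈ C, (lam T : ℂ) * ((∑ i, φ i (T i) : ℚ) : ℂ) = ((∑ i, φ i (p i) : ℚ) : ℂ) := by
  have h1 : ∑ T ∈ C, lam T * ((∑ i, φ i (T i) : ℚ) : ℝ) = ((∑ i, φ i (p i) : ℚ) : ℝ) := by
    push_cast
    simp only [Finset.mul_sum]
    rw [Finset.sum_comm]
    exact Finset.sum_congr rfl fun i _ => hw.avg i fun b => (φ i b : ℝ)
  have h2 := congrArg (fun x : ℝ => (x : ℂ)) h1
  simp only [Complex.ofReal_sum, Complex.ofReal_mul, Complex.ofReal_ratCast] at h2
  exact h2

open Classical in
/-- The weights of the monomials. -/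
private noncomputable def Rl_z (C : Finset (Fin d → ℕ)) (lam : (Fin d → ℕ) → ℝ)
    (T : Fin d → ℕ) : ℂ := if T ∈ C then (lam T : ℂ) else 1

private theorem Rl_z_ne {lam : (Fin d → ℕ) → ℝ} (h0 : ∀ T ∈ C, lam T ≠ 0) (T : Fin d → ℕ) :
    Rl_z C lam T ≠ 0 := by
  unfold Rl_z
  split_ifs with h1
  · exact Complex.ofReal_ne_zero.2 (h0 T h1)
  · exact one_ne_zero

/-- The monomials of value `V`. -/
private theorem Rl_top {V : ℝ} (hT : Top n h u C V) {lam : (Fin d → ℕ) → ℝ} {p : Fin d → ℕ}
    (hw : Wp C lam p) (φ : Fin d → ℕ → ℚ) :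
    ∑ T ∈ (Mo n).filter (fun T => vM h u T = V), Rl_z C lam T * ((∑ i, φ i (T i) : ℚ) : ℂ) =
      ((∑ i, φ i (p i) : ℚ) : ℂ) := by
  have h1 : (Mo n).filter (fun T => vM h u T = V) = C := hT.cf
  rw [h1, ← Rl_avg hw φ]
  refine Finset.sum_congr rfl fun T hT' => ?_
  rw [Rl_z, if_pos hT']

/-- The monomials of a smaller value. -/
private theorem Rl_low {V X : ℝ} (hT : Top n h u C V) (hX : X < V) (lam : (Fin d → ℕ) → ℝ)
    (φ : Fin d → ℕ → ℚ) :
    ∑ T ∈ (Mo n).filter (fun T => vM h u T = X), Rl_z C lam T * ((∑ i, φ i (T i) : ℚ) : ℂ) =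
      ((∑ T ∈ (Mo n).filter (fun T => vM h u T = X), ∑ i, φ i (T i) : ℚ) : ℂ) := by
  rw [Rat.cast_sum]
  refine Finset.sum_congr rfl fun T hT' => ?_
  rw [Rl_z, if_neg, one_mul]
  intro h1
  have h2 := (Finset.mem_filter.1 hT').2
  rw [hT.eq T h1] at h2
  exact absurd h2 hX.ne'

private theorem Top.le {V : ℝ} (hT : Top n h u C V) {T : Fin d → ℕ} (h1 : T ∈ Mo n) :
    vM h u T ≤ V := by
  by_cases h2 : T ∈ C
  · exact (hT.eq T h2).le
  · exact (hT.lt T h1 h2).le

/-- The relations of a flag of the first type. Proof: `z = lam` on `C`, everything else `1`. For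
`V < X` all sums are empty. `X = V`: only `C`, `∑ lam T * ∑ i, φ i (T i) = ∑ i, φ i 0 = 0`. `X < V`:
the form vanishes on `C`, so `φ i b = 0` for `b ≤ n i` (`Con`); the remaining elements: `t (i, n i)`
and `p` have the value `vP sg`, all other `t (i, b)` are smaller. -/
theorem IsA.lf (hA : IsA n h u sg C) : ∃ z y q, LF n h u sg z y q := by
  classical
  obtain ⟨V, hV, hPV⟩ := hA.top
  obtain ⟨lam, h0, hw⟩ := hA.core.wt
  have hvT := Rl_vT (r := n) hA.hsg
  have hle : ∀ i, ∀ b ≤ n i, u i b ≤ u i (n i) := by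
    intro i b hb
    rcases hb.eq_or_lt with rfl | hb
    · exact le_rfl
    · exact (hA.lt i b hb).le
  refine ⟨Rl_z C lam, 1, 1, hA.u0, fun T _ => Rl_z_ne h0 T, fun i b _ => one_ne_zero, one_ne_zero,
    ?_⟩
  intro φ ψ X hφ0 h1 h2 h3
  rcases lt_trichotomy X V with hX | hX | hX
  · -- below
    have h4 : ∀ i b, 0 ≤ b → b ≤ n i → φ i b = φ i (n i) :=
      hA.core.con (Or.inr fun _ => rfl) ℚ φ (fun T hT U hU => by
        rw [h1 T (hV.sub hT) (by rw [hV.eq T hT]; exact hX),
          h1 U (hV.sub hU) (by rw [hV.eq U hU]; exact hX)])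
    have h5 : ∀ i, ∀ b ≤ n i, φ i b = 0 := by
      intro i b hb
      rw [h4 i b (Nat.zero_le _) hb, ← h4 i 0 le_rfl (Nat.zero_le _), hφ0]
    rw [Rl_low hV hX]
    have h6 : ∑ T ∈ (Mo n).filter (fun T => vM h u T = X), ∑ i, φ i (T i) = 0 := by
      refine Finset.sum_eq_zero fun T hT => Finset.sum_eq_zero fun i _ => ?_
      exact h5 i _ ((mem_Mo.1 (Finset.mem_filter.1 hT).1).2 i)
    rw [h6]
    have h7 : ∑ i, ∑ b ∈ (Finset.range (n i + 1)).filter (fun b => vT u sg i b = X),
        (1 : Fin d → ℕ → ℂ) i b * ((ψ i - φ i b : ℚ) : ℂ) =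
        ∑ i, ∑ b ∈ (Finset.range (n i + 1)).filter (fun b => vT u sg i b = X), ((ψ i : ℚ) : ℂ) := by
      refine Finset.sum_congr rfl fun i _ => Finset.sum_congr rfl fun b hb => ?_
      have h8 := Finset.mem_range.1 (Finset.mem_filter.1 hb).1
      rw [h5 i b (by omega), sub_zero, Pi.one_apply, Pi.one_apply, one_mul]
    rw [h7]
    rcases lt_trichotomy X (vP sg) with hP | hP | hP
    · have h8 : ∀ i, ψ i = 0 := by
        intro i
        rw [h2 i (n i) le_rfl (by rw [hvT]; linarith), h5 i _ le_rfl]
      rw [if_neg hP.ne', Finset.sum_eq_zero]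
      · simp
      · intro i _
        exact Finset.sum_eq_zero fun b _ => by rw [h8 i, Rat.cast_zero]
    · subst hP
      rw [if_pos rfl, one_mul, Rat.cast_sum, Rat.cast_zero, zero_add, sub_eq_zero]
      refine Finset.sum_congr rfl fun i _ => ?_
      rw [Rl_flt (r := n) hA.hsg le_rfl fun b hb hne => hA.lt i b (lt_of_le_of_ne hb hne),
        Finset.sum_singleton]
    · rw [if_neg hP.ne, Finset.sum_eq_zero]
      · simp
      · intro i _
        refine Finset.sum_eq_zero fun b hb => ?_
        have h8 := Finset.mem_filter.1 hb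
        have h9 := hle i b (by have := Finset.mem_range.1 h8.1; omega)
        have h10 := h8.2
        rw [hvT] at h10
        linarith
  · -- top
    subst hX
    rw [Rl_top hV hw, if_neg hPV.ne]
    have h4 : ∑ i, φ i ((0 : Fin d → ℕ) i) = 0 := Finset.sum_eq_zero fun i _ => hφ0 i
    rw [h4, Finset.sum_eq_zero]
    · simp
    · intro i _
      refine Finset.sum_eq_zero fun b hb => ?_
      have h8 := Finset.mem_filter.1 hb
      have h9 := hle i b (by have := Finset.mem_range.1 h8.1; omega)
      have h10 := h8.2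
      rw [hvT] at h10
      linarith
  · -- above
    have h4 : (Mo n).filter (fun T => vM h u T = X) = ∅ := by
      rw [Finset.filter_eq_empty_iff]
      intro T hT h5
      have := hV.le hT
      linarith
    rw [h4, Finset.sum_empty, if_neg (by intro h5; linarith), Finset.sum_eq_zero]
    · simp
    · intro i _
      refine Finset.sum_eq_zero fun b hb => ?_
      have h8 := Finset.mem_filter.1 hb
      have h9 := hle i b (by have := Finset.mem_range.1 h8.1; omega)
      have h10 := h8.2
      rw [hvT] at h10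
      linarith

/-- The relations of a flag of the second type. Proof: `z = lam` on `C`, everything else `1`. Let
`V = vP sg`. `V < X`: all sums are empty. `X = V`: `C`, `t (i, r i)` and `p`, with sum
`∑ i, φ i (r i) + ∑ i, (ψ i - φ i (r i)) - ∑ i, ψ i = 0`. `X < V`: `φ i b = φ i (r i) =: f i` for
`loJ J i ≤ b ≤ r i`, `ψ i = f i`, `f i = 0` for `i ∉ J`, `∑ i, f i = 0`. If `J` has one element then
`f = 0`. Let `g i b = f i - φ i b`. The form has the value `- ∑ i, g i (T i)` at `T`, so the sum over
the monomials of value `X` is `- ∑ i, ∑ b, N i b * g i b` with `N i b` the number of the monomials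
`T` of value `X` with `T i = b`. For `r i < b`: `g i b = 0` if `X < vT u sg i b`, `N i b = 1` if
`X = vT u sg i b` and `N i b = 0` if `vT u sg i b < X` (`IsE.up`). For `b = 0`, `i ∈ J`: `f i = 0` if
`X < a`, `N i 0 = 1` if `X = a`, `N i 0 = 0` if `a < X`, and `vT u sg i 0 < a`. -/
theorem IsE.lf (hE : IsE n h u sg r J C) : ∃ z y q, LF n h u sg z y q := by
  classical
  obtain ⟨lam, h0, hw⟩ := hE.core.wt
  have hV := hE.top
  have hvT := Rl_vT hE.hsg
  have hle : ∀ i, ∀ b ≤ n i, u i b ≤ u i (r i) := by
    intro i b hb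
    by_cases h1 : b = r i
    · rw [h1]
    · exact (hE.lt i b hb h1).le
  have hvTle : ∀ i, ∀ b ≤ n i, vT u sg i b ≤ vP sg := by
    intro i b hb
    rw [hvT]
    linarith [hle i b hb]
  refine ⟨Rl_z C lam, 1, 1, hE.u0, fun T _ => Rl_z_ne h0 T, fun i b _ => one_ne_zero, one_ne_zero,
    ?_⟩
  intro φ ψ X hφ0 h1 h2 h3
  rcases lt_trichotomy X (vP sg) with hX | hX | hX
  · -- below
    rw [Rl_low hV hX, if_neg hX.ne']
    have hcon : ∀ i b, loJ J i ≤ b → b ≤ r i → φ i b = φ i (r i) :=
      hE.core.con (Or.inl fun T hT i => (hE.core.box T hT i).2) ℚ φ (fun T hT U hU => by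
        rw [h1 T (hV.sub hT) (by rw [hV.eq T hT]; exact hX),
          h1 U (hV.sub hU) (by rw [hV.eq U hU]; exact hX)])
    have hψ : ∀ i, ψ i = φ i (r i) := fun i =>
      h2 i (r i) (hE.rn i) (by rw [hvT]; linarith)
    have hf0 : ∀ i, i ∉ J → φ i (r i) = 0 := by
      intro i hi
      rw [← hcon i 0 (by rw [loJ, if_neg hi]) (Nat.zero_le _), hφ0]
    have hfs : ∑ i, φ i (r i) = 0 := by
      rw [← h3 hX]
      exact Finset.sum_congr rfl fun i _ => (hψ i).symm
    set F := (Mo n).filter (fun T => vM h u T = X) with hF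
    -- the value at a monomial all labels of which except one are in the box
    have hval : ∀ (i : Fin d) (T : Fin d → ℕ), (∀ j, j ≠ i → loJ J j ≤ T j ∧ T j ≤ r j) →
        ∑ j, φ j (T j) = φ i (T i) - φ i (r i) := by
      intro i T hT
      have h4 : ∑ j, (φ j (T j) - φ j (r j)) = φ i (T i) - φ i (r i) := by
        refine Finset.sum_eq_single i (fun j _ hj => ?_) fun hi => absurd (Finset.mem_univ i) hi
        rw [hcon j (T j) (hT j hj).1 (hT j hj).2, sub_self]
      rw [Finset.sum_sub_distrib, hfs, sub_zero] at h4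
      exact h4
    -- the correction of the label zero
    obtain ⟨e, he, hes⟩ : ∃ e : Fin d → ℚ, (∀ i ∈ J,
        ∑ T ∈ F with T i = 0, (φ i (r i) - φ i 0) =
          (if vT u sg i 0 = X then φ i (r i) - φ i 0 else 0) + e i) ∧ ∑ i ∈ J, e i = 0 := by
      rcases Nat.lt_or_ge 1 J.card with hJ | hJ
      · obtain ⟨a, ha⟩ := hE.dn hJ
        refine ⟨fun i => if X = a then φ i (r i) else 0, fun i hi => ?_, ?_⟩
        · obtain ⟨ha0, T, hT, hTi, hTj, hTa, hTu⟩ := ha i hi
          rw [hφ0, sub_zero]
          change _ = _ + (if X = a then φ i (r i) else 0)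
          rcases lt_trichotomy X a with hXa | hXa | hXa
          · have h4 := hval i T hTj
            rw [h1 T hT (by rw [hTa]; exact hXa), hTi, hφ0] at h4
            have h5 : φ i (r i) = 0 := by linarith
            rw [h5]
            simp
          · subst hXa
            rw [if_neg ha0.ne, if_pos rfl, zero_add]
            have h4 : F.filter (fun U => U i = 0) = {T} := by
              ext U
              rw [Finset.mem_filter, hF, Finset.mem_filter, Finset.mem_singleton]
              constructor
              · rintro ⟨⟨h5, h6⟩, h7⟩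
                by_contra h8
                exact absurd h6 (hTu U h5 h7 h8).ne
              · rintro rfl
                exact ⟨⟨hT, hTa⟩, hTi⟩
            rw [h4, Finset.sum_singleton]
          · rw [if_neg (ha0.trans hXa).ne, if_neg hXa.ne', add_zero, Finset.sum_eq_zero]
            intro U hU
            exfalso
            obtain ⟨h5, h7⟩ := Finset.mem_filter.1 hU
            obtain ⟨h5, h6⟩ := Finset.mem_filter.1 (hF ▸ h5)
            by_cases h8 : U = T
            · subst h8
              linarith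
            · linarith [hTu U h5 h7 h8]
        · by_cases hXa : X = a
          · simp only [if_pos hXa]
            rw [← hfs]
            exact Finset.sum_subset (Finset.subset_univ _) fun i _ hi => hf0 i hi
          · simp only [if_neg hXa]
            exact Finset.sum_const_zero
      · refine ⟨0, fun i hi => ?_, by simp⟩
        have h4 : J = {i} := Finset.eq_singleton_iff_unique_mem.2
          ⟨hi, fun j hj => Finset.card_le_one.1 hJ j hj i hi⟩
        have h5 : φ i (r i) = 0 := by
          rw [← hfs]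
          symm
          refine Finset.sum_eq_single i (fun j _ hj => hf0 j ?_) fun h6 =>
            absurd (Finset.mem_univ i) h6
          rw [h4, Finset.mem_singleton]
          exact hj
        rw [h5, hφ0]
        simp
    -- the sum for one factor
    have hone : ∀ i, ∑ T ∈ F, (φ i (r i) - φ i (T i)) =
        ∑ b ∈ (Finset.range (n i + 1)).filter (fun b => vT u sg i b = X), (φ i (r i) - φ i b) +
          if i ∈ J then e i else 0 := by
      intro i
      have h4 : ∑ T ∈ F, (φ i (r i) - φ i (T i)) =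
          ∑ b ∈ Finset.range (n i + 1), ∑ T ∈ F with T i = b, (φ i (r i) - φ i b) := by
        rw [← Finset.sum_fiberwise_of_maps_to (s := F) (t := Finset.range (n i + 1))
          (g := fun T => T i) (fun T hT => ?_) fun T => φ i (r i) - φ i (T i)]
        · refine Finset.sum_congr rfl fun b _ => Finset.sum_congr rfl fun T hT => ?_
          rw [(Finset.mem_filter.1 hT).2]
        · have h5 := (mem_Mo.1 (Finset.mem_filter.1 (hF ▸ hT)).1).2 i
          exact Finset.mem_range.2 (by omega)
      have h5 : ∀ b ∈ Finset.range (n i + 1), ∑ T ∈ F with T i = b, (φ i (r i) - φ i b) =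
          (if vT u sg i b = X then φ i (r i) - φ i b else 0) +
            if b = 0 then (if i ∈ J then e i else 0) else 0 := by
        intro b hb
        have hbn : b ≤ n i := by
          have := Finset.mem_range.1 hb
          omega
        by_cases hbox : loJ J i ≤ b ∧ b ≤ r i
        · have h6 : φ i (r i) - φ i b = 0 := by rw [hcon i b hbox.1 hbox.2, sub_self]
          rw [h6, Finset.sum_const_zero, ite_self, zero_add]
          by_cases hb0 : b = 0
          · rw [if_pos hb0, if_neg]
            intro hi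
            have h7 := hbox.1
            rw [loJ, if_pos hi, hb0] at h7
            omega
          · rw [if_neg hb0]
        · rcases not_and_or.1 hbox with h6 | h6
          · have hi : i ∈ J := by
              by_contra hi
              rw [loJ, if_neg hi] at h6
              omega
            have hb0 : b = 0 := by
              rw [loJ, if_pos hi] at h6
              omega
            subst hb0
            rw [if_pos rfl, if_pos hi]
            exact he i hi
          · rw [not_le] at h6
            rw [if_neg (c := b = 0) (by omega), add_zero]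
            obtain ⟨T, hT, hTi, _, hTv, hTu⟩ := hE.up i b h6 hbn
            rcases lt_trichotomy X (vT u sg i b) with hXv | hXv | hXv
            · have h7 : φ i (r i) - φ i b = 0 := by rw [← hψ, h2 i b hbn hXv, sub_self]
              rw [h7, Finset.sum_const_zero, ite_self]
            · rw [if_pos hXv.symm]
              have h7 : F.filter (fun U => U i = b) = {T} := by
                ext U
                rw [Finset.mem_filter, hF, Finset.mem_filter, Finset.mem_singleton]
                constructor
                · rintro ⟨⟨h5, h6⟩, h7⟩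
                  by_contra h8
                  have h9 := hTu U h5 h7 h8
                  rw [h6, hTv, hXv] at h9
                  exact absurd h9 (lt_irrefl _)
                · rintro rfl
                  exact ⟨⟨hT, hTv.trans hXv.symm⟩, hTi⟩
              rw [h7, Finset.sum_singleton]
            · rw [if_neg hXv.ne, Finset.sum_eq_zero]
              intro U hU
              exfalso
              obtain ⟨h5, h7⟩ := Finset.mem_filter.1 hU
              obtain ⟨h5, h6⟩ := Finset.mem_filter.1 (hF ▸ h5)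
              by_cases h8 : U = T
              · subst h8
                linarith
              · linarith [hTu U h5 h7 h8]
      rw [h4, Finset.sum_congr rfl h5, Finset.sum_add_distrib, ← Finset.sum_filter]
      congr 1
      rw [Finset.sum_ite_eq', if_pos (Finset.mem_range.2 (Nat.succ_pos _))]
    have h6 : ∑ T ∈ F, ∑ i, φ i (T i) +
        ∑ i, ∑ b ∈ (Finset.range (n i + 1)).filter (fun b => vT u sg i b = X),
          (ψ i - φ i b) = 0 := by
      have h7 : ∑ T ∈ F, ∑ i, φ i (T i) = -∑ i, ∑ T ∈ F, (φ i (r i) - φ i (T i)) := by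
        rw [Finset.sum_comm (s := Finset.univ), ← Finset.sum_neg_distrib]
        refine Finset.sum_congr rfl fun T _ => ?_
        rw [Finset.sum_sub_distrib, hfs, zero_sub, neg_neg]
      have h8 : ∑ i, (if i ∈ J then e i else 0) = 0 := by
        rw [Finset.sum_ite_mem, Finset.univ_inter, hes]
      rw [h7, Finset.sum_congr rfl fun i _ => hone i, Finset.sum_add_distrib, h8, add_zero,
        neg_add_eq_zero]
      exact Finset.sum_congr rfl fun i _ => Finset.sum_congr rfl fun b _ => by rw [hψ]
    rw [sub_zero]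
    have h7 := congrArg (fun x : ℚ => (x : ℂ)) h6
    simp only [Rat.cast_add, Rat.cast_sum, Rat.cast_zero] at h7
    rw [Rat.cast_sum]
    simp only [Rat.cast_sum, Pi.one_apply, one_mul]
    exact h7
  · -- top
    subst hX
    rw [Rl_top hV hw, if_pos rfl, one_mul]
    have h4 : ∑ i, ∑ b ∈ (Finset.range (n i + 1)).filter (fun b => vT u sg i b = vP sg),
        (1 : Fin d → ℕ → ℂ) i b * ((ψ i - φ i b : ℚ) : ℂ) =
        ((∑ i, (ψ i - φ i (r i)) : ℚ) : ℂ) := by
      rw [Rat.cast_sum]
      refine Finset.sum_congr rfl fun i _ => ?_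
      rw [Rl_flt hE.hsg (hE.rn i) fun b hb hne => hE.lt i b hb hne, Finset.sum_singleton,
        Pi.one_apply, Pi.one_apply, one_mul]
    rw [h4, Finset.sum_sub_distrib]
    push_cast
    ring
  · -- above
    have h4 : (Mo n).filter (fun T => vM h u T = X) = ∅ := by
      rw [Finset.filter_eq_empty_iff]
      intro T hT h5
      have := hV.le hT
      linarith
    rw [h4, Finset.sum_empty, if_neg hX.ne, Finset.sum_eq_zero]
    · simp
    · intro i _
      refine Finset.sum_eq_zero fun b hb => ?_
      have h8 := Finset.mem_filter.1 hb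
      have h9 := hvTle i b (by have := Finset.mem_range.1 h8.1; omega)
      linarith [h8.2]

end Pool.Agent.MPb0eA
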