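import Pool.Agent.Lib.MP_b0e20b_ag_A.AltU

/-!
# MP_b0e20b_ag, block X: an alternating multiset is determined by its marginals
-/

set_option autoImplicit false

open scoped BigOperators

namespace Pool.Agent.MPb0eA

/-- Two sets which are nested on the support of the weights. -/
theorem sum_nested {α : Type} (B : Finset α) (m : α → ℤ) (h0 : ∀ T ∈ B, 0 ≤ m T)
    (P Q : α → Prop) [DecidablePred P] [DecidablePred Q]
    (h : (∀ T ∈ B, m T ≠ 0 → P T → Q T) ∨ ∀ T ∈ B, m T ≠ 0 → Q T → P T) :
    ∑ T ∈ B with P T ∧ Q T, m T = min (∑ T ∈ B with P T, m T) (∑ T ∈ B with Q T, m T) := by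
  have hle : ∀ (R S : α → Prop) [DecidablePred R] [DecidablePred S],
      ∑ T ∈ B with R T ∧ S T, m T ≤ ∑ T ∈ B with R T, m T := by
    intro R S _ _
    refine Finset.sum_le_sum_of_subset_of_nonneg (fun T hT => ?_) fun T hT _ =>
      h0 T (Finset.mem_filter.1 hT).1
    rw [Finset.mem_filter] at hT ⊢
    exact ⟨hT.1, hT.2.1⟩
  have heq : ∀ (R S : α → Prop) [DecidablePred R] [DecidablePred S],
      (∀ T ∈ B, m T ≠ 0 → R T → S T) →
        ∑ T ∈ B with R T ∧ S T, m T = ∑ T ∈ B with R T, m T := by
    intro R S _ _ h1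
    rw [Finset.sum_filter, Finset.sum_filter]
    refine Finset.sum_congr rfl fun T hT => ?_
    by_cases hR : R T
    · by_cases hS : S T
      · rw [if_pos ⟨hR, hS⟩, if_pos hR]
      · rw [if_neg fun h2 => hS h2.2, if_pos hR]
        by_contra h3
        exact hS (h1 T hT (fun h4 => h3 h4.symm) hR)
    · rw [if_neg fun h2 => hR h2.1, if_neg hR]
  have hcomm : ∑ T ∈ B with P T ∧ Q T, m T = ∑ T ∈ B with Q T ∧ P T, m T :=
    Finset.sum_congr (Finset.filter_congr fun T _ => and_comm) fun _ _ => rfl
  rcases h with h | h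
  · rw [heq P Q h, min_eq_left]
    rw [← heq P Q h, hcomm]
    exact hle Q P
  · rw [hcomm, heq Q P h, min_eq_right]
    rw [← heq Q P h, ← hcomm]
    exact hle P Q

/-- The multiset with multiplicities `m` has the alternating support. -/
def PwM {d : ℕ} (B : Finset (Fin d → ℕ)) (m : (Fin d → ℕ) → ℤ) : Prop :=
  ∀ T ∈ B, ∀ U ∈ B, m T ≠ 0 → m U ≠ 0 → Alt T U

/-- An alternating multiset is determined by its marginals. -/
theorem ua : ∀ {d : ℕ} {B : Finset (Fin d → ℕ)} {m m' : (Fin d → ℕ) → ℤ},
    (∀ T ∈ B, 0 ≤ m T) → (∀ T ∈ B, 0 ≤ m' T) → PwM B m → PwM B m' →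
    ∑ T ∈ B, m T = ∑ T ∈ B, m' T →
    (∀ i b, ∑ T ∈ B with T i = b, m T = ∑ T ∈ B with T i = b, m' T) → ∀ T ∈ B, m T = m' T := by
  classical
  intro d
  induction d with
  | zero =>
    intro B m m' _ _ _ _ hs _ T hT
    have h1 : B = {T} := Finset.eq_singleton_iff_unique_mem.2
      ⟨hT, fun U _ => funext fun i => i.elim0⟩
    rw [h1, Finset.sum_singleton, Finset.sum_singleton] at hs
    exact hs
  | succ d ih =>
    intro B m m' h0 h0' hP hP' hs hb T0 hT0
    -- the truncations
    set Bh : Finset (Fin d → ℕ) := B.image Fin.init with hBh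
    have hex : ∀ (f : (Fin (d + 1) → ℕ) → ℤ) (κ : Fin d → ℕ),
        ∑ T ∈ B with Fin.init T = κ, f T ≠ 0 → ∃ T ∈ B, Fin.init T = κ ∧ f T ≠ 0 := by
      intro f κ h
      obtain ⟨T, hT, hT'⟩ := Finset.exists_ne_zero_of_sum_ne_zero h
      rw [Finset.mem_filter] at hT
      exact ⟨T, hT.1, hT.2, hT'⟩
    have hhat : ∀ κ ∈ Bh, ∑ T ∈ B with Fin.init T = κ, m T =
        ∑ T ∈ B with Fin.init T = κ, m' T := by
      have hpw : ∀ f : (Fin (d + 1) → ℕ) → ℤ, PwM B f →
          PwM Bh fun κ => ∑ T ∈ B with Fin.init T = κ, f T := by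
        intro f hf κ _ κ' _ h1 h2
        obtain ⟨T, hT, rfl, hT'⟩ := hex f κ h1
        obtain ⟨U, hU, rfl, hU'⟩ := hex f κ' h2
        exact (hf T hT U hU hT' hU').init
      refine ih (B := Bh) (m := fun κ => ∑ T ∈ B with Fin.init T = κ, m T)
        (m' := fun κ => ∑ T ∈ B with Fin.init T = κ, m' T)
        (fun κ _ => Finset.sum_nonneg fun T hT => h0 T (Finset.mem_filter.1 hT).1)
        (fun κ _ => Finset.sum_nonneg fun T hT => h0' T (Finset.mem_filter.1 hT).1)
        (hpw m hP) (hpw m' hP') ?_ ?_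
      · have h1 := sum_image B m (fun _ => True)
        have h2 := sum_image B m' (fun _ => True)
        simp only [Finset.filter_true] at h1 h2
        rw [hBh, h1, h2, hs]
      · intro i b
        have h1 := sum_image B m (fun κ => κ i = b)
        have h2 := sum_image B m' (fun κ => κ i = b)
        rw [hBh, h1, h2]
        exact hb i.castSucc b
    -- the sums over unions of columns
    have hcol : ∀ (P : (Fin d → ℕ) → Prop) [DecidablePred P],
        ∑ T ∈ B with P (Fin.init T), m T = ∑ T ∈ B with P (Fin.init T), m' T := by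
      intro P _
      rw [← sum_image B m P, ← sum_image B m' P]
      exact Finset.sum_congr rfl fun κ hκ => hhat κ (Finset.mem_filter.1 hκ).1
    have hrow : ∀ c : ℕ, ∑ T ∈ B with c ≤ T (Fin.last d), m T =
        ∑ T ∈ B with c ≤ T (Fin.last d), m' T := by
      intro c
      have h1 : ∀ f : (Fin (d + 1) → ℕ) → ℤ, ∑ T ∈ B with c ≤ T (Fin.last d), f T =
          ∑ b ∈ (B.image fun T => T (Fin.last d)).filter (fun b => c ≤ b),
            ∑ T ∈ B with T (Fin.last d) = b, f T := by
        intro f
        rw [← Finset.sum_fiberwise_of_maps_to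
          (s := B.filter fun T => c ≤ T (Fin.last d))
          (t := (B.image fun T => T (Fin.last d)).filter (fun b => c ≤ b))
          (g := fun T => T (Fin.last d)) (fun T hT => by
            rw [Finset.mem_filter] at hT
            exact Finset.mem_filter.2 ⟨Finset.mem_image_of_mem _ hT.1, hT.2⟩) f]
        refine Finset.sum_congr rfl fun b hb' => ?_
        rw [Finset.filter_filter]
        refine Finset.sum_congr (Finset.filter_congr fun T _ => ?_) fun _ _ => rfl
        have h2 := (Finset.mem_filter.1 hb').2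
        constructor
        · exact fun h3 => h3.2
        · exact fun h3 => ⟨by omega, h3⟩
      rw [h1 m, h1 m']
      exact Finset.sum_congr rfl fun b _ => hb (Fin.last d) b
    set κ := Fin.init T0 with hκ
    set c := T0 (Fin.last d) with hc
    -- the sums over the quadrants
    have hF : ∀ c' : ℕ, ∑ T ∈ B with ¬ Rl κ (Fin.init T) ∧ c' ≤ T (Fin.last d), m T =
        ∑ T ∈ B with ¬ Rl κ (Fin.init T) ∧ c' ≤ T (Fin.last d), m' T := by
      have h1 : ∀ (c' : ℕ) (f : (Fin (d + 1) → ℕ) → ℤ), (∀ T ∈ B, 0 ≤ f T) → PwM B f →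
          ∑ T ∈ B with ¬ Rl κ (Fin.init T) ∧ c' ≤ T (Fin.last d), f T =
            min (∑ T ∈ B with ¬ Rl κ (Fin.init T), f T)
              (∑ T ∈ B with c' ≤ T (Fin.last d), f T) := by
        intro c' f hf0 hf
        refine sum_nested B f hf0 _ _ ?_
        by_contra hcon
        simp only [not_or, not_forall, exists_prop, not_not, not_le] at hcon
        obtain ⟨⟨T, hT, hT1, hT2, hT3⟩, U, hU, hU1, hU2, hU3⟩ := hcon
        have h2 : Rl (Fin.init T) (Fin.init U) := by
          by_cases h3 : Fin.init T = κ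
          · rw [h3]
            exact hU3
          · rcases Rl.tri h3 with h4 | h4
            · exact h4.trans hU3
            · exact absurd h4 hT2
        have h3 := (hf T hT U hU hT1 hU1).anti h2
        omega
      intro c'
      rw [h1 c' m h0 hP, h1 c' m' h0' hP', hcol (fun κ' => ¬ Rl κ κ'), hrow c']
    have hF' : ∀ c' : ℕ, ∑ T ∈ B with Rl (Fin.init T) κ ∧ c' ≤ T (Fin.last d), m T =
        ∑ T ∈ B with Rl (Fin.init T) κ ∧ c' ≤ T (Fin.last d), m' T := by
      have h1 : ∀ (c' : ℕ) (f : (Fin (d + 1) → ℕ) → ℤ), (∀ T ∈ B, 0 ≤ f T) → PwM B f →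
          ∑ T ∈ B with Rl (Fin.init T) κ ∧ c' ≤ T (Fin.last d), f T =
            min (∑ T ∈ B with Rl (Fin.init T) κ, f T)
              (∑ T ∈ B with c' ≤ T (Fin.last d), f T) := by
        intro c' f hf0 hf
        refine sum_nested B f hf0 _ _ ?_
        by_contra hcon
        simp only [not_or, not_forall, exists_prop, not_le] at hcon
        obtain ⟨⟨T, hT, hT1, hT2, hT3⟩, U, hU, hU1, hU2, hU3⟩ := hcon
        have h2 : Rl (Fin.init T) (Fin.init U) := by
          by_cases h3 : Fin.init U = κ
          · rw [h3]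
            exact hT2
          · rcases Rl.tri h3 with h4 | h4
            · exact absurd h4 hU3
            · exact hT2.trans h4
        have h3 := (hf T hT U hU hT1 hU1).anti h2
        omega
      intro c'
      rw [h1 c' m h0 hP, h1 c' m' h0' hP', hcol (fun κ' => Rl κ' κ), hrow c']
    -- the value at `T0`
    have hval : ∀ f : (Fin (d + 1) → ℕ) → ℤ, f T0 =
        (∑ T ∈ B with ¬ Rl κ (Fin.init T) ∧ c ≤ T (Fin.last d), f T -
          ∑ T ∈ B with ¬ Rl κ (Fin.init T) ∧ c + 1 ≤ T (Fin.last d), f T) -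
        (∑ T ∈ B with Rl (Fin.init T) κ ∧ c ≤ T (Fin.last d), f T -
          ∑ T ∈ B with Rl (Fin.init T) κ ∧ c + 1 ≤ T (Fin.last d), f T) := by
      intro f
      simp only [Finset.sum_filter]
      rw [← Finset.sum_sub_distrib, ← Finset.sum_sub_distrib, ← Finset.sum_sub_distrib,
        Finset.sum_eq_single T0]
      · have h1 : ¬ Rl κ (Fin.init T0) := Rl.irrefl _
        have h2 : ¬ Rl (Fin.init T0) κ := Rl.irrefl _
        rw [if_pos ⟨h1, le_rfl⟩, if_neg fun h3 => absurd h3.2 (by omega),
          if_neg fun h3 => h2 h3.1, if_neg fun h3 => h2 h3.1]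
        ring
      · intro T _ hT
        by_cases h1 : Fin.init T = κ
        · have h2 : T (Fin.last d) ≠ c := by
            intro h3
            apply hT
            rw [← Fin.snoc_init_self T, ← Fin.snoc_init_self T0, h1, h3]
          have h3 : ¬ Rl κ (Fin.init T) := by rw [h1]; exact Rl.irrefl _
          have h4 : ¬ Rl (Fin.init T) κ := by rw [h1]; exact Rl.irrefl _
          by_cases h5 : c ≤ T (Fin.last d)
          · rw [if_pos ⟨h3, h5⟩, if_pos ⟨h3, by omega⟩, if_neg fun h6 => h4 h6.1,
              if_neg fun h6 => h4 h6.1]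
            ring
          · rw [if_neg fun h6 => h5 h6.2, if_neg fun h6 => absurd h6.2 (by omega),
              if_neg fun h6 => h4 h6.1, if_neg fun h6 => h4 h6.1]
            ring
        · rcases Rl.tri h1 with h2 | h2
          · have h3 := h2.asymm
            simp only [h2, h3, not_false_eq_true, true_and]
            ring
          · have h3 := h2.asymm
            simp only [h2, h3, not_true_eq_false, false_and, if_false]
            ring
      · intro h
        exact absurd hT0 h
    rw [hval m, hval m', hF c, hF (c + 1), hF' c, hF' (c + 1)]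

end Pool.Agent.MPb0eA
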