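import Pool.Agent.Lib.MP_b0e20b_ag_X.Rl

/-!
# MP_b0e20b_ag, block X: a flag is determined by its cell, and the cell by the flag
-/

set_option autoImplicit false

open scoped BigOperators

namespace Pool.Agent.MPb0eA

variable {d : ℕ} {n : Fin d → ℕ} {h : (Fin d → ℕ) → ℝ} {u u' : Fin d → ℕ → ℝ} {sg sg' : Fin d → ℝ}
  {r r' : Fin d → ℕ} {J J' : Finset (Fin d)} {C C' : Finset (Fin d → ℕ)}

private theorem Top_uniq {V V' : ℝ} (h1 : Top n h u C V) (h2 : Top n h u C' V') :
    V = V' ∧ C = C' := by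
  have hle : ∀ {D D' : Finset (Fin d → ℕ)} {W W' : ℝ}, Top n h u D W → Top n h u D' W' →
      W ≤ W' := by
    intro D D' W W' a1 a2
    obtain ⟨T, hT⟩ := a1.ne
    by_cases hT' : T ∈ D'
    · rw [← a1.eq T hT, a2.eq T hT']
    · rw [← a1.eq T hT]
      exact (a2.lt T (a1.sub hT) hT').le
  have hV : V = V' := le_antisymm (hle h1 h2) (hle h2 h1)
  subst hV
  have hsub : ∀ {D D' : Finset (Fin d → ℕ)}, Top n h u D V → Top n h u D' V → D ⊆ D' := by
    intro D D' a1 a2 T hT
    by_contra hT'
    have h3 := a2.lt T (a1.sub hT) hT'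
    rw [a1.eq T hT] at h3
    exact lt_irrefl _ h3
  exact ⟨rfl, Finset.Subset.antisymm (hsub h1 h2) (hsub h2 h1)⟩

private theorem vM_sub (T : Fin d → ℕ) :
    ∑ i, (u i (T i) - u' i (T i)) = vM h u T - vM h u' T := by
  rw [Finset.sum_sub_distrib]
  unfold vM
  ring

/-- The growth exponents are determined by the cell. -/
theorem IsA.uniq (hA : IsA n h u sg C) (hA' : IsA n h u' sg' C) :
    (∀ i, ∀ b ≤ n i, u i b = u' i b) ∧ sg = sg' := by
  obtain ⟨V, hV, -⟩ := hA.top
  obtain ⟨V', hV', -⟩ := hA'.top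
  have hcon := hA.core.con (Or.inr fun i => rfl)
  have h1 := hcon ℝ (fun i b => u i b - u' i b) (fun T hT U hU => by
    rw [vM_sub (h := h) T, vM_sub (h := h) U, hV.eq T hT, hV.eq U hU, hV'.eq T hT, hV'.eq U hU])
  have h2 : ∀ i, ∀ b ≤ n i, u i b = u' i b := by
    intro i b hb
    have h3 : u i b - u' i b = u i (n i) - u' i (n i) := h1 i b (Nat.zero_le _) hb
    have h4 : u i 0 - u' i 0 = u i (n i) - u' i (n i) := h1 i 0 (Nat.zero_le _) (Nat.zero_le _)
    rw [hA.u0, hA'.u0] at h4
    linarith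
  refine ⟨h2, funext fun i => ?_⟩
  rw [hA.hsg, hA'.hsg, h2 i (n i) le_rfl]

theorem IsE.uniq (hE : IsE n h u sg r J C) (hE' : IsE n h u' sg' r J C) :
    (∀ i, ∀ b ≤ n i, u i b = u' i b) ∧ sg = sg' := by
  classical
  have hcon := hE.core.con (Or.inl fun T hT i => (hE.core.box T hT i).2)
  have h1 : ∀ i b, loJ J i ≤ b → b ≤ r i → u i b - u' i b = u i (r i) - u' i (r i) :=
    hcon ℝ (fun i b => u i b - u' i b) (fun T hT U hU => by
      rw [vM_sub (h := h) T, vM_sub (h := h) U, hE.top.eq T hT, hE.top.eq U hU, hE'.top.eq T hT,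
        hE'.top.eq U hU])
  obtain ⟨del, hdel⟩ : ∃ del : Fin d → ℝ, ∀ i, del i = u i (r i) - u' i (r i) :=
    ⟨_, fun i => rfl⟩
  have hP : vP sg - vP sg' = 2 * ∑ i, del i := by
    unfold vP
    rw [← Finset.sum_sub_distrib, Finset.mul_sum]
    refine Finset.sum_congr rfl fun i _ => ?_
    rw [hE.hsg, hE'.hsg, hdel]
    ring
  have hsum : ∑ i, del i = 0 := by
    obtain ⟨T, hT⟩ := hE.top.ne
    have h2 : ∑ i, (u i (T i) - u' i (T i)) = ∑ i, del i :=
      Finset.sum_congr rfl fun i _ => by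
        rw [hdel]
        exact h1 i (T i) (hE.core.box T hT i).1 (hE.core.box T hT i).2
    rw [vM_sub (h := h) T, hE.top.eq T hT, hE'.top.eq T hT, hP] at h2
    linarith
  have hnot : ∀ i, i ∉ J → del i = 0 := by
    intro i hi
    have h2 := h1 i 0 (by unfold loJ; rw [if_neg hi]) (Nat.zero_le _)
    rw [hE.u0, hE'.u0] at h2
    rw [hdel]
    linarith
  -- the difference of the two values at a tuple with all other labels in the range
  have hdif : ∀ (i : Fin d) (T : Fin d → ℕ), (∀ j, j ≠ i → loJ J j ≤ T j ∧ T j ≤ r j) →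
      vM h u T - vM h u' T = u i (T i) - u' i (T i) - del i := by
    intro i T hT
    rw [← vM_sub (h := h) T, ← Finset.add_sum_erase Finset.univ _ (Finset.mem_univ i)]
    have h2 : ∑ k ∈ Finset.univ.erase i, (u k (T k) - u' k (T k)) =
        ∑ k ∈ Finset.univ.erase i, del k :=
      Finset.sum_congr rfl fun k hk => by
        rw [hdel]
        exact h1 k (T k) (hT k (Finset.ne_of_mem_erase hk)).1 (hT k (Finset.ne_of_mem_erase hk)).2
    have h3 := Finset.add_sum_erase Finset.univ del (Finset.mem_univ i)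
    rw [h2]
    linarith
  have hall : ∀ i, del i = 0 := by
    by_cases hc : 2 ≤ J.card
    · obtain ⟨a, ha⟩ := hE.dn hc
      obtain ⟨a', ha'⟩ := hE'.dn hc
      have h2 : ∀ i ∈ J, del i = a' - a := by
        intro i hi
        obtain ⟨-, T, hTm, hT0, hTr, hTa, hTu⟩ := ha i hi
        obtain ⟨-, T', hTm', hT0', hTr', hTa', hTu'⟩ := ha' i hi
        have h3 := hdif i T hTr
        have h4 := hdif i T' hTr'
        rw [hT0, hE.u0, hE'.u0, hTa] at h3
        rw [hT0', hE.u0, hE'.u0, hTa'] at h4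
        by_cases hTT : T = T'
        · rw [hTT, hTa'] at h3
          linarith
        · have h5 := hTu T' hTm' hT0' (Ne.symm hTT)
          have h6 := hTu' T hTm hT0 hTT
          linarith
      have h3 : ∑ i ∈ J, del i = 0 := by
        rw [← hsum]
        exact Finset.sum_subset (Finset.subset_univ _) fun i _ hi => hnot i hi
      rw [Finset.sum_congr rfl h2, Finset.sum_const, nsmul_eq_mul] at h3
      have h4 : (J.card : ℝ) ≠ 0 := by
        have h5 : J.card ≠ 0 := by omega
        exact_mod_cast h5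
      have h5 : a' - a = 0 := (mul_eq_zero.1 h3).resolve_left h4
      intro i
      by_cases hi : i ∈ J
      · rw [h2 i hi, h5]
      · exact hnot i hi
    · have hc1 : J.card = 1 := by
        have h5 := Finset.card_pos.2 hE.J0
        omega
      obtain ⟨j, hj⟩ := Finset.card_eq_one.1 hc1
      have h3 : ∑ i, del i = del j := by
        refine Finset.sum_eq_single j (fun b _ hb => hnot b ?_) (fun hb => ?_)
        · rw [hj, Finset.mem_singleton]
          exact hb
        · exact absurd (Finset.mem_univ j) hb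
      intro i
      by_cases hi : i ∈ J
      · rw [hj, Finset.mem_singleton] at hi
        rw [hi, ← h3, hsum]
      · exact hnot i hi
  have hPe : vP sg = vP sg' := by
    have h2 := hP
    rw [hsum] at h2
    linarith
  have hsg : ∀ i, sg i = sg' i := by
    intro i
    have h2 := hall i
    rw [hdel] at h2
    rw [hE.hsg, hE'.hsg]
    linarith
  refine ⟨fun i b hb => ?_, funext hsg⟩
  rcases Nat.lt_or_ge (r i) b with hrb | hrb
  · obtain ⟨T, hTm, hTb, hTr, hTv, hTu⟩ := hE.up i b hrb hb
    obtain ⟨T', hTm', hTb', hTr', hTv', hTu'⟩ := hE'.up i b hrb hb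
    have h3 := hdif i T hTr
    have h4 := hdif i T' hTr'
    rw [hTb, hall i] at h3
    rw [hTb', hall i] at h4
    have h7 : vT u sg i b - vT u' sg' i b = 2 * (u i b - u' i b) := by
      have h8 : ∑ j, sg j = ∑ j, sg' j := Finset.sum_congr rfl fun j _ => hsg j
      unfold vT
      rw [h8, hsg i]
      ring
    by_cases hTT : T = T'
    · rw [← hTT] at hTv'
      rw [hTv, hTv'] at h3
      linarith
    · have h5 := hTu T' hTm' hTb' (Ne.symm hTT)
      have h6 := hTu' T hTm hTb hTT
      linarith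
  · rcases Nat.lt_or_ge b (loJ J i) with hlb | hlb
    · have h2 : b = 0 := by
        unfold loJ at hlb
        split_ifs at hlb <;> omega
      rw [h2, hE.u0, hE'.u0]
    · have h2 := h1 i b hlb hrb
      rw [← hdel, hall i] at h2
      linarith

/-- The cell is determined by the growth exponents. -/
theorem IsA.inj (hA : IsA n h u sg C) (hA' : IsA n h u sg C') : C = C' := by
  obtain ⟨V, hV, -⟩ := hA.top
  obtain ⟨V', hV', -⟩ := hA'.top
  exact (Top_uniq hV hV').2

theorem IsE.inj (hE : IsE n h u sg r J C) (hE' : IsE n h u sg r' J' C') :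
    r = r' ∧ J = J' ∧ C = C' := by
  have hC : C = C' := (Top_uniq hE.top hE'.top).2
  subst hC
  have hJ : ∀ {s s' : Fin d → ℕ} {K K' : Finset (Fin d)}, IsE n h u sg s K C →
      IsE n h u sg s' K' C → K ⊆ K' := by
    intro s s' K K' a1 a2 i hi
    by_contra hi'
    obtain ⟨T, hT, hT0⟩ := a2.core.used i 0 (by unfold loJ; rw [if_neg hi']) (Nat.zero_le _)
    have h1 := (a1.core.box T hT i).1
    rw [hT0] at h1
    unfold loJ at h1
    rw [if_pos hi] at h1
    omega
  refine ⟨funext fun i => ?_, Finset.Subset.antisymm (hJ hE hE') (hJ hE' hE), rfl⟩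
  by_contra hne
  have h1 := hE.lt i (r' i) (hE'.rn i) (Ne.symm hne)
  have h2 := hE'.lt i (r i) (hE.rn i) hne
  exact lt_asymm h1 h2

theorem IsA.not_E (hA : IsA n h u sg C) (hE : IsE n h u sg r J C') : False := by
  obtain ⟨V, hV, hlt⟩ := hA.top
  have h1 := (Top_uniq hV hE.top).1
  rw [h1] at hlt
  exact lt_irrefl _ hlt

end Pool.Agent.MPb0eA
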